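import Pool.Agent.K6.H7.CM1.Wgt
import Pool.Agent.W537.PC.Small

set_option autoImplicit false
set_option linter.unusedSectionVars false
set_option linter.unusedSimpArgs false

/-!
# Differences of weights for abelian fields
-/

open Module Matrix TensorProduct Pool.Agent.Y102 Pool.Agent.H204R3.GP

noncomputable section

namespace Pool.Agent.K6.H7.CM1

variable {ι : Type} {K : ι → Type} [∀ i, Field (K i)] [∀ i, NumberField (K i)]
  {L : Type} [Field L] [NumberField L]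

/-- Every CM type of `L` occurs among the CM types `Φ_i`, for the indices `i` such that `K_i` is
isomorphic to `L`. -/
def AllTypesOccur (Φ : ∀ i, Set (K i →+* ℂ)) (L : Type) [Field L] [NumberField L] : Prop :=
  ∀ Ψ : Set (L →+* ℂ), IsCMType Ψ → ∃ (i : ι) (f : K i ≃ₐ[ℚ] L),
    ∀ φ : L →+* ℂ, φ ∈ Ψ ↔ φ.comp (f : K i →+* L) ∈ Φ i

/-- The functions in the space generated by the weights are odd. -/
theorem odd_of_span {Φ : ∀ i, Set (K i →+* ℂ)} (hΦ : ∀ i, IsCMType (Φ i))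
    {f : (L →+* ℂ) → ℚ} (hf : f ∈ Submodule.span ℚ (Set.range (weight Φ L))) (φ : L →+* ℂ) :
    f (NumberField.ComplexEmbedding.conjugate φ) = -f φ := by
  induction hf using Submodule.span_induction with
  | mem f hf =>
    obtain ⟨p, rfl⟩ := hf
    rw [weight_apply, weight_apply, sg_conj hΦ]
    push_cast
    rfl
  | zero => simp
  | add f f' _ _ h h' => rw [Pi.add_apply, Pi.add_apply, h, h', neg_add]
  | smul r f _ h => rw [Pi.smul_apply, Pi.smul_apply, h, smul_neg]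

/-- A small function. -/
theorem exists_small_fun [IsGalois ℚ L] (hab : ∀ σ τ : L ≃ₐ[ℚ] L, σ * τ = τ * σ)
    {c : L ≃ₐ[ℚ] L}
    (hc : ∀ φ : L →+* ℂ, tw φ c = NumberField.ComplexEmbedding.conjugate φ)
    {W : Submodule ℚ ((L →+* ℂ) → ℚ)} (hst : IsGaloisStable W)
    (hodd : ∀ f ∈ W, ∀ φ : L →+* ℂ, f (NumberField.ComplexEmbedding.conjugate φ) = -f φ)
    (hW : W ≠ ⊥) : ∃ H ∈ W, H ≠ 0 ∧ (∀ φ, H φ = 0 ∨ H φ = 1 ∨ H φ = -1) := by
  classical
  obtain ⟨f, hf, hf0⟩ := (Submodule.ne_bot_iff W).1 hW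
  obtain ⟨N, f', hN, hf'⟩ := exists_den f
  obtain ⟨φ0⟩ : Nonempty (L →+* ℂ) := inferInstance
  let inst : CommGroup (L ≃ₐ[ℚ] L) := { (inferInstance : Group (L ≃ₐ[ℚ] L)) with mul_comm := hab }
  have hB0 : (fun σ : L ≃ₐ[ℚ] L => f' (tw φ0 σ)) ≠ 0 := by
    intro h0
    apply hf0
    funext φ
    obtain ⟨σ, rfl⟩ := exists_galois φ0 φ
    have h1 := congrFun h0 σ
    have h2 := hf' (tw φ0 σ)
    simp only [Pi.zero_apply] at h1
    rw [h1, Int.cast_zero] at h2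
    rcases mul_eq_zero.1 h2.symm with h3 | h3
    · exact absurd (by exact_mod_cast h3) hN
    · exact h3
  have hBodd : ∀ σ : L ≃ₐ[ℚ] L, f' (tw φ0 (c * σ)) = -f' (tw φ0 σ) := by
    intro σ
    have h1 : tw φ0 (c * σ) = NumberField.ComplexEmbedding.conjugate (tw φ0 σ) := by
      change tw (tw φ0 c) σ = _
      rw [hc]
      rfl
    have h2 := hf' (tw φ0 (c * σ))
    rw [h1, hodd f hf, mul_neg, ← hf'] at h2
    rw [h1]
    exact_mod_cast h2
  obtain ⟨n, M, h, hM, hh0, hhv, -, hn⟩ :=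
    Pool.Agent.W537.PC.exists_small c (fun σ : L ≃ₐ[ℚ] L => f' (tw φ0 σ)) hBodd hB0
  let F : (L →+* ℂ) → ℚ := fun φ => ∑ u : L ≃ₐ[ℚ] L, (n u : ℚ) * ((f' (tw φ u) : ℤ) : ℚ)
  have hF : F ∈ W := by
    have h1 : F = ∑ u : L ≃ₐ[ℚ] L, ((n u : ℚ) * N) • fun φ : L →+* ℂ => f (tw φ u) := by
      funext φ
      rw [Finset.sum_apply]
      refine Finset.sum_congr rfl fun u _ => ?_
      rw [Pi.smul_apply, smul_eq_mul, hf', mul_assoc]
    rw [h1]
    exact Submodule.sum_mem _ fun u _ => Submodule.smul_mem _ _ (hst u f hf)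
  have hFv : ∀ σ : L ≃ₐ[ℚ] L, F (tw φ0 σ) = M * (h σ : ℚ) := by
    intro σ
    have h1 : ∀ u : L ≃ₐ[ℚ] L, tw (tw φ0 σ) u = tw φ0 (u * σ) := by
      intro u
      rw [hab u σ]
      rfl
    have h2 : F (tw φ0 σ) = ((∑ u : L ≃ₐ[ℚ] L, n u * f' (tw φ0 (u * σ)) : ℤ) : ℚ) := by
      push_cast
      refine Finset.sum_congr rfl fun u _ => ?_
      rw [h1]
    rw [h2, hn]
    push_cast
    rfl
  have hM0 : (M : ℚ) ≠ 0 := by exact_mod_cast hM.ne'
  refine ⟨(M : ℚ)⁻¹ • F, Submodule.smul_mem _ _ hF, ?_, fun φ => ?_⟩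
  · intro h0
    apply hh0
    funext σ
    have h1 := congrFun h0 (tw φ0 σ)
    rw [Pi.smul_apply, hFv, smul_eq_mul, inv_mul_cancel_left₀ hM0, Pi.zero_apply] at h1
    rw [Pi.zero_apply]
    exact_mod_cast h1
  · obtain ⟨σ, rfl⟩ := exists_galois φ0 φ
    rw [Pi.smul_apply, hFv, smul_eq_mul, inv_mul_cancel_left₀ hM0]
    rcases hhv σ with h1 | h1 | h1
    · left
      rw [h1, Int.cast_zero]
    · right
      left
      rw [h1, Int.cast_one]
    · right
      right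
      rw [h1, Int.cast_neg, Int.cast_one]

/-- **Abelian fields.** -/
theorem hasWeightDifferences_of_abelian [IsGalois ℚ L] (hab : ∀ σ τ : L ≃ₐ[ℚ] L, σ * τ = τ * σ)
    {c : L ≃ₐ[ℚ] L}
    (hc : ∀ φ : L →+* ℂ, tw φ c = NumberField.ComplexEmbedding.conjugate φ)
    {Φ : ∀ i, Set (K i →+* ℂ)} (hΦ : ∀ i, IsCMType (Φ i)) (hall : AllTypesOccur Φ L) :
    HasWeightDifferences Φ L := by
  classical
  intro W hle hst hW
  obtain ⟨H, hH, hH0, hHv⟩ := exists_small_fun hab hc hst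
    (fun f hf φ => odd_of_span hΦ (hle hf) φ) hW
  have hHodd : ∀ φ, H (NumberField.ComplexEmbedding.conjugate φ) = -H φ :=
    fun φ => odd_of_span hΦ (hle hH) φ
  -- a CM type of `L`
  obtain ⟨Ψ, hΨ⟩ : ∃ Ψ : Set (L →+* ℂ), IsCMType Ψ := by
    by_contra hcon
    push Not at hcon
    have hι : IsEmpty (Σ i, (K i →ₐ[ℚ] L)) := by
      refine ⟨fun p => hcon {φ | φ.comp (p.2 : K p.1 →+* L) ∈ Φ p.1} fun φ => ?_⟩
      exact hΦ p.1 (φ.comp (p.2 : K p.1 →+* L))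
    apply hW
    rw [eq_bot_iff]
    refine hle.trans ?_
    rw [Set.range_eq_empty, Submodule.span_empty]
  have hcc : ∀ φ : L →+* ℂ, NumberField.ComplexEmbedding.conjugate
      (NumberField.ComplexEmbedding.conjugate φ) = φ := by
    intro φ
    refine RingHom.ext fun x => ?_
    rw [NumberField.ComplexEmbedding.conjugate_coe_eq,
      NumberField.ComplexEmbedding.conjugate_coe_eq, Complex.conj_conj]
  have key : ∀ ε : ℚ, (ε = 1 ∨ ε = -1) → IsCMType {φ : L →+* ℂ | H φ = ε ∨ (H φ = 0 ∧ φ ∈ Ψ)} := by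
    intro ε hε φ
    simp only [Set.mem_setOf_eq]
    rw [hHodd φ, neg_eq_zero]
    have h1 := hΨ φ
    rcases hHv φ with h | h | h <;> rcases hε with rfl | rfl <;> rw [h] <;> norm_num <;> exact h1
  obtain ⟨i, f, hf⟩ := hall _ (key 1 (Or.inl rfl))
  obtain ⟨j, f', hf'⟩ := hall _ (key (-1) (Or.inr rfl))
  have hdiff : weight Φ L ⟨i, (f : K i →ₐ[ℚ] L)⟩ - weight Φ L ⟨j, (f' : K j →ₐ[ℚ] L)⟩ =
      (2 : ℚ) • H := by
    funext φ
    have h1 := hf φ
    have h2 := hf' φ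
    simp only [Set.mem_setOf_eq] at h1 h2
    rw [Pi.sub_apply, Pi.smul_apply, smul_eq_mul]
    unfold weight
    change (if φ.comp (f : K i →+* L) ∈ Φ i then (1 : ℚ) else -1) -
      (if φ.comp (f' : K j →+* L) ∈ Φ j then (1 : ℚ) else -1) = 2 * H φ
    simp only [← h1, ← h2]
    rcases hHv φ with h | h | h <;> rw [h] <;> norm_num
  refine ⟨_, _, fun h => ?_, by
    rw [hdiff]
    exact W.smul_mem _ hH⟩
  rw [h, sub_self] at hdiff
  exact hH0 ((smul_eq_zero.1 hdiff.symm).resolve_left two_ne_zero)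

end Pool.Agent.K6.H7.CM1
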