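import Pool.Agent.K6.H7.CM1.Dat
import Pool.Agent.R917.DT.Mat

set_option autoImplicit false
set_option linter.unusedSectionVars false
set_option linter.unusedSimpArgs false

/-!
# Duality for the Lie algebras of tori
-/

open Module Matrix TensorProduct Pool.Agent.Y102 Pool.Agent.H204R3.GP

noncomputable section

namespace Pool.Agent.K6.H7.CM1

variable {ι : Type} {K : ι → Type} [∀ i, Field (K i)] [∀ i, NumberField (K i)]

open Classical in
/-- the sign of an embedding: `1` for the elements of the CM type -/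
def sg (Φ : ∀ i, Set (K i →+* ℂ)) (p : Σ i, (K i →+* ℂ)) : ℤ := if p.2 ∈ Φ p.1 then 1 else -1

namespace CMData

variable {g : ℕ} {A : AbVar g} {Φ : ∀ i, Set (K i →+* ℂ)} (D : CMData A Φ)

/-- The action of `∏ K_i` on the rational homology. -/
def act : (∀ i, K i) →ₐ[ℚ] Module.End ℚ A.H1 where
  toFun θ := D.E.toLinearMap ∘ₗ (LinearMap.mulLeft ℚ θ) ∘ₗ D.E.symm.toLinearMap
  map_one' := by
    refine LinearMap.ext fun w => ?_
    simp
  map_mul' θ η := by
    refine LinearMap.ext fun w => ?_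
    simp [mul_assoc]
  map_zero' := by
    refine LinearMap.ext fun w => ?_
    simp
  map_add' θ η := by
    refine LinearMap.ext fun w => ?_
    simp [add_mul]
  commutes' c := by
    refine LinearMap.ext fun w => ?_
    simp [Algebra.algebraMap_eq_smul_one]

theorem act_E (θ x : ∀ i, K i) : D.act θ (D.E x) = D.E (θ * x) := by
  change D.E (θ * D.E.symm (D.E x)) = _
  rw [LinearEquiv.symm_apply_apply]

theorem ext_E {X Y : Module.End ℚ A.H1} (h : ∀ x, X (D.E x) = Y (D.E x)) : X = Y := by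
  refine LinearMap.ext fun w => ?_
  rw [← D.E.apply_symm_apply w]
  exact h _

theorem act_inj {θ η : ∀ i, K i} (h : D.act θ = D.act η) : θ = η := by
  have h1 := congrArg (fun X : Module.End ℚ A.H1 => X (D.E 1)) h
  simp only [act_E, mul_one] at h1
  exact D.E.injective h1

theorem hodge_act (θ : ∀ i, K i) : IsHodgeEnd (A.per : A.H1 →+ (Fin g → ℂ)) (D.act θ) := by
  let M : (∀ i, Φ i → ℂ) →ₗ[ℂ] (∀ i, Φ i → ℂ) :=
    { toFun := fun f i φ => φ.1 (θ i) * f i φ
      map_add' := fun f f' => by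
        funext i φ
        exact mul_add _ _ _
      map_smul' := fun c f => by
        funext i φ
        change φ.1 (θ i) * (c * f i φ) = c * (φ.1 (θ i) * f i φ)
        ring }
  refine ⟨D.T.toLinearMap ∘ₗ M ∘ₗ D.T.symm.toLinearMap, fun w => ?_⟩
  obtain ⟨x, rfl⟩ := D.E.surjective w
  rw [act_E]
  change D.T (M (D.T.symm (A.per (D.E x)))) = A.per (D.E (θ * x))
  rw [D.per_E, D.per_E, LinearEquiv.symm_apply_apply]
  congr 1
  funext i φ
  exact (map_mul _ _ _).symm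

/-- The elements of the Lie algebra of the Hodge group act by elements of `∏ K_i`. -/
theorem exists_act {X : Module.End ℚ A.H1} (hX : X ∈ A.MA) : ∃ θ, D.act θ = X := by
  refine ⟨D.E.symm (X (D.E 1)), D.ext_E fun x => ?_⟩
  have h1 := congrArg (fun Y : Module.End ℚ A.H1 => Y (D.E 1)) (A.MA_comm hX (D.hodge_act x))
  change X (D.act x (D.E 1)) = D.act x (X (D.E 1)) at h1
  rw [act_E, mul_one] at h1
  have h2 : D.act x (X (D.E 1)) = D.E (x * D.E.symm (X (D.E 1))) := by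
    conv_lhs => rw [← D.E.apply_symm_apply (X (D.E 1))]
    exact D.act_E _ _
  rw [h1, act_E, h2, mul_comm x]

end CMData

/-! ### Polynomials -/

section pol

/-- the components of a polynomial in `θ` -/
def pol (Q : Polynomial ℂ) (lam : ℂ →ₗ[ℚ] ℚ) (θ : ∀ i, K i) : ∀ i, K i :=
  ∑ k ∈ Finset.range (Q.natDegree + 1), lam (Q.coeff k) • θ ^ k

theorem lam_mul_rat (lam : ℂ →ₗ[ℚ] ℚ) (c : ℂ) (q : ℚ) : lam (c * (q : ℂ)) = lam c * q := by
  have h1 : c * (q : ℂ) = q • c := by rw [Rat.smul_def, mul_comm]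
  rw [h1, map_smul, smul_eq_mul, mul_comm]

theorem lam_rat_mul (lam : ℂ →ₗ[ℚ] ℚ) (c : ℂ) (q : ℚ) : lam ((q : ℂ) * c) = q * lam c := by
  rw [mul_comm, lam_mul_rat, mul_comm]

variable [Fintype ι]

theorem trace_pol (Q : Polynomial ℂ) (lam : ℂ →ₗ[ℚ] ℚ) (θ a : ∀ i, K i) :
    ∑ i, Algebra.trace ℚ (K i) (a i * pol Q lam θ i) =
      lam (∑ p : Σ i, (K i →+* ℂ), ev p a * Q.eval (ev p θ)) := by
  have h1 : ∑ i, Algebra.trace ℚ (K i) (a i * pol Q lam θ i) =
      ∑ k ∈ Finset.range (Q.natDegree + 1), lam (Q.coeff k) *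
        ∑ i, Algebra.trace ℚ (K i) (a i * (θ ^ k) i) := by
    have h2 : ∀ i, Algebra.trace ℚ (K i) (a i * pol Q lam θ i) =
        ∑ k ∈ Finset.range (Q.natDegree + 1), lam (Q.coeff k) *
          Algebra.trace ℚ (K i) (a i * (θ ^ k) i) := by
      intro i
      unfold pol
      rw [Finset.sum_apply, Finset.mul_sum, map_sum]
      refine Finset.sum_congr rfl fun k _ => ?_
      rw [Pi.smul_apply, mul_smul_comm, map_smul, smul_eq_mul]
    rw [Finset.sum_congr rfl fun i _ => h2 i, Finset.sum_comm]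
    exact Finset.sum_congr rfl fun k _ => (Finset.mul_sum _ _ _).symm
  have h3 : ∑ p : Σ i, (K i →+* ℂ), ev p a * Q.eval (ev p θ) =
      ∑ k ∈ Finset.range (Q.natDegree + 1), Q.coeff k *
        ((∑ i, Algebra.trace ℚ (K i) (a i * (θ ^ k) i) : ℚ) : ℂ) := by
    have h4 : ∀ p : Σ i, (K i →+* ℂ), ev p a * Q.eval (ev p θ) =
        ∑ k ∈ Finset.range (Q.natDegree + 1), Q.coeff k * (ev p a * ev p (θ ^ k)) := by
      intro p
      rw [Polynomial.eval_eq_sum_range, Finset.mul_sum]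
      refine Finset.sum_congr rfl fun k _ => ?_
      have h5 : ev p (θ ^ k) = ev p θ ^ k := by
        unfold ev
        rw [Pi.pow_apply, map_pow]
      rw [h5]
      ring
    rw [Finset.sum_congr rfl fun p _ => h4 p, Finset.sum_comm]
    refine Finset.sum_congr rfl fun k _ => ?_
    rw [dual_ev, Finset.mul_sum]
  rw [h1, h3, map_sum]
  exact Finset.sum_congr rfl fun k _ => (lam_mul_rat _ _ _).symm

theorem pol_eq_zero {Q : Polynomial ℂ} {θ : ∀ i, K i} (h : ∀ p, Q.eval (ev p θ) = 0)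
    (lam : ℂ →ₗ[ℚ] ℚ) : pol Q lam θ = 0 := by
  classical
  funext i
  refine eq_zero_of_trace fun a => ?_
  have h1 := trace_pol Q lam θ (Pi.single i a)
  rw [Finset.sum_eq_zero (f := fun p : Σ i, (K i →+* ℂ) =>
    ev p (Pi.single i a) * Q.eval (ev p θ)) (fun p _ => by rw [h, mul_zero]), map_zero,
    Finset.sum_eq_single i] at h1
  · rwa [Pi.single_eq_same] at h1
  · intro j _ hj
    rw [Pi.single_eq_of_ne hj, zero_mul, map_zero]
  · intro hi
    exact absurd (Finset.mem_univ _) hi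

end pol

theorem eq_zero_of_lam {x : ℂ} (h : ∀ lam : ℂ →ₗ[ℚ] ℚ, lam x = 0) : x = 0 := by
  by_contra hx
  obtain ⟨f, hf⟩ := Module.Projective.exists_dual_ne_zero ℚ hx
  exact hf (h f)

/-! ### Replicas -/

section replica

open Pool.Agent.R917.DT Pool.Agent.R917.EC Pool.Agent.R917

namespace CMData

variable {g : ℕ} {A : AbVar g} {Φ : ∀ i, Set (K i →+* ℂ)} (D : CMData A Φ)

theorem cmpE_aeval' (θ : ∀ i, K i) (Q : Polynomial ℂ) (lam : ℂ →ₗ[ℚ] ℚ) :
    Pool.Agent.W516.DR.cmpE lam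
      (Polynomial.aeval ((D.act θ).baseChange ℂ : Module.End ℂ (ℂ ⊗[ℚ] A.H1)) Q) =
      D.act (pol Q lam θ) := by
  refine LinearMap.ext fun w => ?_
  rw [Pool.Agent.W516.DR.cmpE_apply, Polynomial.aeval_eq_sum_range, LinearMap.sum_apply, map_sum]
  unfold pol
  rw [map_sum, LinearMap.sum_apply]
  refine Finset.sum_congr rfl fun k _ => ?_
  rw [map_smul, map_pow, LinearMap.smul_apply, LinearMap.smul_apply, ← LinearMap.baseChange_pow,
    LinearMap.baseChange_tmul, TensorProduct.smul_tmul', smul_eq_mul, mul_one,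
    Pool.Agent.W516.DR.cmp_tmul]

theorem rm_pol (θ : ∀ i, K i) (Q : Polynomial ℂ) (lam : ℂ →ₗ[ℚ] ℚ) :
    rm (D.act (pol Q lam θ)) = (Polynomial.aeval (rm (D.act θ)) Q).map (lamF lam) := by
  rw [← rm_cmpE, cmpE_aeval']

variable [Fintype ι]

theorem aeval_nodal (θ : ∀ i, K i) {s : Finset ℂ} (hs : ∀ p, ev p θ ∈ s) :
    Polynomial.aeval (rm (D.act θ)) (Lagrange.nodal s id) = 0 := by
  ext i j
  rw [Matrix.zero_apply]
  refine eq_zero_of_lam fun lam => ?_
  have h1 := D.rm_pol θ (Lagrange.nodal s id) lam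
  rw [pol_eq_zero (fun p => Lagrange.eval_nodal_at_node (v := id) (hs p)) lam, map_zero,
    rm_zero] at h1
  have h2 := congrFun (congrFun h1 i) j
  rw [Matrix.map_apply, Matrix.zero_apply, lamF_apply] at h2
  exact_mod_cast h2.symm

/-- **Replicas.** -/
theorem replica {𝔥 : Submodule ℚ (Module.End ℚ A.H1)} (hRC : RC 𝔥) {θ : ∀ i, K i}
    (hθ : D.act θ ∈ 𝔥) (σ : ℂ →+ ℂ) {f : (∀ i, K i) →ₗ[ℚ] ℚ}
    (hf : ∀ η, D.act η ∈ 𝔥 → f η = 0) {a : ∀ i, K i}
    (ha : ∀ x, f x = ∑ i, Algebra.trace ℚ (K i) (a i * x i)) :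
    ∑ p : Σ i, (K i →+* ℂ), ev p a * σ (ev p θ) = 0 := by
  classical
  let s : Finset ℂ := Finset.univ.image fun p : Σ i, (K i →+* ℂ) => ev p θ
  have hs : ∀ p, ev p θ ∈ s := fun p => Finset.mem_image_of_mem _ (Finset.mem_univ p)
  let Q : Polynomial ℂ := Lagrange.interpolate s id (fun x => σ x)
  have hQ : ∀ x ∈ s, Q.eval x = σ x := fun x hx =>
    Lagrange.eval_interpolate_at_node (fun x => σ x) (Function.injective_id.injOn) hx
  refine eq_zero_of_lam fun lam => ?_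
  have h1 := hRC (D.act θ) hθ s (D.aeval_nodal θ hs) σ Q hQ lam (D.act (pol Q lam θ))
    (D.rm_pol θ Q lam)
  have h2 := hf _ h1
  rw [ha, trace_pol] at h2
  rw [← h2]
  congr 1
  exact Finset.sum_congr rfl fun p _ => by rw [hQ _ (hs p)]

/-- The components of the complex structure. -/
theorem exists_J (hΦ : ∀ i, IsCMType (Φ i)) : ∃ (κ : Type) (S : Finset κ) (b : κ → ℝ)
    (f : κ → (ℝ →ₗ[ℚ] ℚ)) (θ : κ → ∀ i, K i), (∀ k, D.act (θ k) = A.cmpE (f k) AbVar.JJ) ∧
    (∀ p, ∑ k ∈ S, (b k : ℂ) * ev p (θ k) = sg Φ p * Complex.I) ∧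
    ∀ r : ℝ →ₗ[ℚ] ℚ, A.cmpE r AbVar.JJ = ∑ k ∈ S, r (b k) • A.cmpE (f k) AbVar.JJ := by
  classical
  obtain ⟨S, hS⟩ := exists_coords (fun p : Fin (2 * g) × Fin (2 * g) =>
    A.lam.repr (Complex.I • A.lam p.1) p.2)
  choose θ hθ using fun k : Basis.ofVectorSpaceIndex ℚ ℝ =>
    D.exists_act (A.J_mem ((Basis.ofVectorSpace ℚ ℝ).coord k))
  have hcmp : ∀ (r : ℝ →ₗ[ℚ] ℚ) (i j : Fin (2 * g)), A.cmpE r AbVar.JJ (A.bas i) j =
      r (A.lam.repr (Complex.I • A.lam i) j) := by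
    intro r i j
    rw [AbVar.cmpE_apply, AbVar.per_bas]
    rfl
  have hJ : ∀ w, Complex.I • A.per w = ∑ k ∈ S, Basis.ofVectorSpace ℚ ℝ k •
      A.per (A.cmpE ((Basis.ofVectorSpace ℚ ℝ).coord k) AbVar.JJ w) := by
    intro w
    have h1 : ((Complex.I • A.per w : Fin g → ℂ)) = ((LinearMap.restrictScalars ℚ
        (AbVar.JJ : (Fin g → ℂ) →ₗ[ℝ] (Fin g → ℂ))).comp A.per) w := rfl
    have h2 : ∑ k ∈ S, Basis.ofVectorSpace ℚ ℝ k •
        A.per (A.cmpE ((Basis.ofVectorSpace ℚ ℝ).coord k) AbVar.JJ w) =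
        (∑ k ∈ S, (LinearMap.restrictScalars ℚ (Basis.ofVectorSpace ℚ ℝ k •
          (LinearMap.id : (Fin g → ℂ) →ₗ[ℝ] (Fin g → ℂ)))).comp
          (A.per.comp (A.cmpE ((Basis.ofVectorSpace ℚ ℝ).coord k) AbVar.JJ))) w := by
      rw [LinearMap.sum_apply]
      rfl
    rw [h1, h2]
    congr 1
    refine A.bas.ext fun i => ?_
    rw [LinearMap.sum_apply]
    change Complex.I • A.per (A.bas i) = ∑ k ∈ S, Basis.ofVectorSpace ℚ ℝ k •
        A.per (A.cmpE ((Basis.ofVectorSpace ℚ ℝ).coord k) AbVar.JJ (A.bas i))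
    rw [AbVar.per_bas]
    conv_lhs => rw [← A.lam.sum_repr (Complex.I • A.lam i)]
    have h3 : ∀ k, A.per (A.cmpE ((Basis.ofVectorSpace ℚ ℝ).coord k) AbVar.JJ (A.bas i)) =
        ∑ j, (((Basis.ofVectorSpace ℚ ℝ).coord k (A.lam.repr (Complex.I • A.lam i) j) : ℚ) : ℝ) •
          A.lam j := by
      intro k
      rw [AbVar.per_apply]
      refine Finset.sum_congr rfl fun j _ => ?_
      rw [hcmp, AbVar.rat_smul]
    simp only [h3, Finset.smul_sum]
    rw [Finset.sum_comm]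
    refine Finset.sum_congr rfl fun j _ => ?_
    have h4 := hS (i, j)
    simp only at h4
    conv_lhs => rw [h4]
    rw [Finset.sum_smul]
    refine Finset.sum_congr rfl fun k _ => ?_
    rw [smul_smul, mul_comm]
  have hplus : ∀ i (φ : K i →+* ℂ), φ ∈ Φ i →
      ∑ k ∈ S, ((Basis.ofVectorSpace ℚ ℝ k : ℝ) : ℂ) * φ (θ k i) = Complex.I := by
    intro i φ hφ
    have h1 := hJ (D.E 1)
    rw [D.per_E] at h1
    have h2 : ∀ k, A.per (A.cmpE ((Basis.ofVectorSpace ℚ ℝ).coord k) AbVar.JJ (D.E 1)) =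
        D.T fun i φ => φ.1 (θ k i) := by
      intro k
      rw [← hθ k, act_E, mul_one, D.per_E]
    simp only [h2] at h1
    have h3 := congrArg D.T.symm h1
    rw [map_smul, LinearEquiv.symm_apply_apply, map_sum] at h3
    have h4 := congrFun (congrFun h3 i) ⟨φ, hφ⟩
    rw [Finset.sum_apply, Finset.sum_apply] at h4
    have h5 : ∀ k, D.T.symm (Basis.ofVectorSpace ℚ ℝ k • D.T fun i (φ : Φ i) => φ.1 (θ k i)) =
        ((Basis.ofVectorSpace ℚ ℝ k : ℝ) : ℂ) • fun i (φ : Φ i) => φ.1 (θ k i) := by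
      intro k
      rw [← Complex.coe_smul, map_smul, LinearEquiv.symm_apply_apply]
    simp only [h5] at h4
    have h6 : (Complex.I • fun i (φ : Φ i) => φ.1 ((1 : ∀ i, K i) i)) i ⟨φ, hφ⟩ = Complex.I := by
      change Complex.I * φ 1 = Complex.I
      rw [map_one, mul_one]
    rw [h6] at h4
    exact h4.symm
  refine ⟨_, S, fun k => Basis.ofVectorSpace ℚ ℝ k, fun k => (Basis.ofVectorSpace ℚ ℝ).coord k, θ,
    hθ, fun p => ?_, fun r => ?_⟩
  · obtain ⟨i, φ⟩ := p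
    unfold ev sg
    by_cases hφ : φ ∈ Φ i
    · rw [if_pos hφ, Int.cast_one, one_mul]
      exact hplus i φ hφ
    · rw [if_neg hφ]
      have h1 : NumberField.ComplexEmbedding.conjugate φ ∈ Φ i := by
        by_contra h2
        exact hφ ((hΦ i φ).2 h2)
      have h2 := congrArg (starRingEnd ℂ) (hplus i _ h1)
      rw [map_sum, Complex.conj_I] at h2
      have h3 : ∀ k, (starRingEnd ℂ) (((Basis.ofVectorSpace ℚ ℝ k : ℝ) : ℂ) *
          NumberField.ComplexEmbedding.conjugate φ (θ k i)) =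
          ((Basis.ofVectorSpace ℚ ℝ k : ℝ) : ℂ) * φ (θ k i) := by
        intro k
        rw [map_mul, Complex.conj_ofReal, NumberField.ComplexEmbedding.conjugate_coe_eq,
          Complex.conj_conj]
      rw [Finset.sum_congr rfl fun k _ => h3 k] at h2
      rw [h2]
      push_cast
      ring
  · refine A.bas.ext fun i => ?_
    funext j
    rw [LinearMap.sum_apply, Finset.sum_apply, hcmp]
    have h4 := hS (i, j)
    simp only at h4
    conv_lhs => rw [h4]
    rw [map_sum]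
    refine Finset.sum_congr rfl fun k _ => ?_
    rw [LinearMap.smul_apply, Pi.smul_apply, hcmp, smul_eq_mul]
    have h5 : (((Basis.ofVectorSpace ℚ ℝ).coord k (A.lam.repr (Complex.I • A.lam i) j) : ℚ) : ℝ) *
        Basis.ofVectorSpace ℚ ℝ k = ((Basis.ofVectorSpace ℚ ℝ).coord k
          (A.lam.repr (Complex.I • A.lam i) j)) • Basis.ofVectorSpace ℚ ℝ k := by
      rw [Rat.smul_def]
    rw [h5, map_smul, smul_eq_mul, mul_comm]

/-- **Duality.** If all relations of the torus of `𝔥` are relations of the Hodge cocharacter, then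
the complex structure is in `𝔥`. -/
theorem J_mem_of (hΦ : ∀ i, IsCMType (Φ i)) {𝔥 : Submodule ℚ (Module.End ℚ A.H1)} (hRC : RC 𝔥)
    (hN : ∀ c : (Σ i, (K i →+* ℂ)) → ℚ, (∀ θ, D.act θ ∈ 𝔥 → ∑ p, (c p : ℂ) * ev p θ = 0) →
      ∑ p, c p * (sg Φ p : ℚ) = 0) (r : ℝ →ₗ[ℚ] ℚ) : A.cmpE r AbVar.JJ ∈ 𝔥 := by
  by_contra hcon
  obtain ⟨Λ, hΛ1, hΛ2⟩ := Submodule.exists_le_ker_of_notMem hcon
  obtain ⟨a, ha⟩ := exists_dual (Λ.comp D.act.toLinearMap)
  have hf : ∀ η, D.act η ∈ 𝔥 → (Λ.comp D.act.toLinearMap) η = 0 := fun η hη => hΛ2 hη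
  -- the functional on the cocharacter
  have h1 : ∑ p : Σ i, (K i →+* ℂ), (sg Φ p : ℂ) * ev p a = 0 := by
    refine eq_zero_of_lam fun μ => ?_
    have h2 := hN (fun p => μ (ev p a)) fun θ hθ => by
      refine eq_zero_of_lam fun ν => ?_
      let σ : ℂ →+ ℂ :=
        { toFun := fun z => ((ν z : ℚ) : ℂ)
          map_zero' := by rw [map_zero, Rat.cast_zero]
          map_add' := fun z w => by rw [map_add, Rat.cast_add] }
      have h3 := congrArg μ (D.replica hRC hθ σ hf ha)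
      rw [map_sum, map_zero] at h3
      rw [map_sum, ← h3]
      refine Finset.sum_congr rfl fun p _ => ?_
      rw [lam_rat_mul]
      exact (lam_mul_rat μ (ev p a) (ν (ev p θ))).symm
    rw [map_sum, ← h2]
    refine Finset.sum_congr rfl fun p _ => ?_
    have h4 : ((sg Φ p : ℤ) : ℂ) = (((sg Φ p : ℤ) : ℚ) : ℂ) := by push_cast; rfl
    rw [h4, lam_rat_mul, mul_comm]
  -- the value on the components of the complex structure
  obtain ⟨κ, S, b, f, θ, h2, h3, h4⟩ := D.exists_J hΦ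
  apply hΛ1
  rw [h4, map_sum]
  have h5 : ∀ k, Λ (A.cmpE (f k) AbVar.JJ) = ∑ i, Algebra.trace ℚ (K i) (a i * θ k i) := by
    intro k
    rw [← ha, ← h2]
    rfl
  have h6 : ∑ k ∈ S, b k * ((Λ (A.cmpE (f k) AbVar.JJ) : ℚ) : ℝ) = 0 := by
    have h7 : ((∑ k ∈ S, b k * ((Λ (A.cmpE (f k) AbVar.JJ) : ℚ) : ℝ) : ℝ) : ℂ) = 0 := by
      push_cast
      have h8 : ∀ k, ((Λ (A.cmpE (f k) AbVar.JJ) : ℚ) : ℂ) =
          ∑ p : Σ i, (K i →+* ℂ), ev p a * ev p (θ k) := by
        intro k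
        rw [h5, dual_ev]
      simp only [h8, Finset.mul_sum]
      rw [Finset.sum_comm]
      have h9 : ∀ p : Σ i, (K i →+* ℂ), ∑ k ∈ S, (b k : ℂ) * (ev p a * ev p (θ k)) =
          Complex.I * ((sg Φ p : ℂ) * ev p a) := by
        intro p
        have h10 : ∑ k ∈ S, (b k : ℂ) * (ev p a * ev p (θ k)) =
            ev p a * ∑ k ∈ S, (b k : ℂ) * ev p (θ k) := by
          rw [Finset.mul_sum]
          exact Finset.sum_congr rfl fun k _ => by ring
        rw [h10, h3]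
        ring
      rw [Finset.sum_congr rfl fun p _ => h9 p, ← Finset.mul_sum, h1, mul_zero]
    exact_mod_cast h7
  have h7 := congrArg r h6
  rw [map_sum, map_zero] at h7
  rw [← h7]
  refine Finset.sum_congr rfl fun k _ => ?_
  rw [map_smul, smul_eq_mul]
  have h8 : b k * ((Λ (A.cmpE (f k) AbVar.JJ) : ℚ) : ℝ) = Λ (A.cmpE (f k) AbVar.JJ) • b k := by
    rw [Rat.smul_def, mul_comm]
  rw [h8, map_smul, smul_eq_mul, mul_comm]

end CMData

end replica

end Pool.Agent.K6.H7.CM1
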