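import Pool.Agent.K6.H7.CM1.Fin

set_option autoImplicit false
set_option linter.unusedSectionVars false
set_option linter.unusedSimpArgs false

/-!
# Products of abelian varieties with complex multiplication by a number field
-/

open Module Matrix Pool.Agent.Y102

noncomputable section

namespace Pool.Agent.K6.H7.CM1

section types

variable {K : Type} [Field K]

/-- The set `Φ` of complex embeddings of `K` is a CM type: it contains exactly one of the embeddings
`φ` and `φ̄`, for all `φ`. -/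
def IsCMType (Φ : Set (K →+* ℂ)) : Prop :=
  ∀ φ, φ ∈ Φ ↔ NumberField.ComplexEmbedding.conjugate φ ∉ Φ

theorem IsCMType.nonempty [NumberField K] {Φ : Set (K →+* ℂ)} (h : IsCMType Φ) :
    Φ.Nonempty := by
  obtain ⟨φ⟩ : Nonempty (K →+* ℂ) := inferInstance
  by_cases hφ : φ ∈ Φ
  · exact ⟨φ, hφ⟩
  · by_contra hcon
    rw [Set.not_nonempty_iff_eq_empty] at hcon
    rw [h φ, hcon] at hφ
    exact hφ (Set.notMem_empty _)

theorem map_rat_smul' [NumberField K] (φ : K →+* ℂ) (c : ℚ) (x : K) :
    φ (c • x) = (c : ℂ) * φ x := by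
  rw [Rat.smul_def, map_mul, map_ratCast]

end types

variable {ι : Type} {K : ι → Type} [∀ i, Field (K i)] [∀ i, NumberField (K i)]

/-- `A` is isogenous (over the complex numbers) to the product of the complex tori `ℂ^{Φ_i} / O_{K_i}`,
for a family of number fields `K_i` and of sets `Φ_i` of complex embeddings of `K_i`: the tangent
space of `A` is the sum of the `ℂ^{Φ_i}`, and the rational homology of `A` is the sum of the images of
the `K_i` under the maps `x ↦ (φ(x))`, `φ ∈ Φ_i`. -/
def IsCMProduct {g : ℕ} (A : AbVar g) (Φ : ∀ i, Set (K i →+* ℂ)) : Prop :=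
  ∃ T : (∀ i, Φ i → ℂ) ≃ₗ[ℂ] (Fin g → ℂ), ∀ w : Fin g → ℂ,
    w ∈ LinearMap.range A.per ↔ ∃ x : ∀ i, K i, w = T fun i φ => φ.1 (x i)

/-- The data of the product. -/
structure CMData {g : ℕ} (A : AbVar g) (Φ : ∀ i, Set (K i →+* ℂ)) where
  T : (∀ i, Φ i → ℂ) ≃ₗ[ℂ] (Fin g → ℂ)
  E : (∀ i, K i) ≃ₗ[ℚ] A.H1
  per_E : ∀ x, A.per (E x) = T fun i φ => φ.1 (x i)

theorem exists_data {g : ℕ} {A : AbVar g} {Φ : ∀ i, Set (K i →+* ℂ)} (h : IsCMProduct A Φ)
    (hΦ : ∀ i, IsCMType (Φ i)) : Nonempty (CMData A Φ) := by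
  obtain ⟨T, hT⟩ := h
  let F : (∀ i, K i) →ₗ[ℚ] (Fin g → ℂ) :=
    { toFun := fun x => T fun i φ => φ.1 (x i)
      map_add' := fun x y => by
        rw [← map_add]
        congr 1
        funext i φ
        exact map_add _ _ _
      map_smul' := fun c x => by
        have h1 : (fun i (φ : Φ i) => φ.1 ((c • x) i)) = (c : ℂ) • fun i (φ : Φ i) => φ.1 (x i) := by
          funext i φ
          exact map_rat_smul' _ _ _
        rw [h1, map_smul, RingHom.id_apply]
        exact (Rat.cast_smul_eq_qsmul ℂ c _) }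
  have hF : Function.Injective F := by
    rw [← LinearMap.ker_eq_bot, LinearMap.ker_eq_bot']
    intro x hx
    have h1 : (fun i (φ : Φ i) => φ.1 (x i)) = 0 := T.injective (hx.trans (map_zero T).symm)
    funext i
    obtain ⟨φ, hφ⟩ := (hΦ i).nonempty
    have h2 : φ (x i) = 0 := congrFun (congrFun h1 i) ⟨φ, hφ⟩
    exact (map_eq_zero φ).1 h2
  have hr : LinearMap.range F = LinearMap.range A.per := by
    ext w
    rw [hT]
    constructor
    · rintro ⟨x, rfl⟩
      exact ⟨x, rfl⟩
    · rintro ⟨x, rfl⟩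
      exact ⟨x, rfl⟩
  have hper : Function.Injective A.per := fun v w hvw => A.per_inj hvw
  let E : (∀ i, K i) ≃ₗ[ℚ] A.H1 := (LinearEquiv.ofInjective F hF).trans
    ((LinearEquiv.ofEq _ _ hr).trans (LinearEquiv.ofInjective A.per hper).symm)
  refine ⟨⟨T, E, fun x => ?_⟩⟩
  have h1 : (LinearEquiv.ofInjective A.per hper) (E x) =
      LinearEquiv.ofEq _ _ hr (LinearEquiv.ofInjective F hF x) := by
    change (LinearEquiv.ofInjective A.per hper) ((LinearEquiv.ofInjective A.per hper).symm _) = _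
    rw [LinearEquiv.apply_symm_apply]
    rfl
  exact congrArg Subtype.val h1

/-! ### The trace form -/

section trace

variable [Fintype ι]

/-- the value of an embedding on a component -/
def ev (p : Σ i, (K i →+* ℂ)) (x : ∀ i, K i) : ℂ := p.2 (x p.1)

theorem trace_embeddings {F : Type} [Field F] [NumberField F] (x : F) :
    ((Algebra.trace ℚ F x : ℚ) : ℂ) = ∑ φ : F →+* ℂ, φ x := by
  have h1 := trace_eq_sum_embeddings (K := ℚ) (L := F) ℂ (x := x)
  rw [← Equiv.sum_comp (RingHom.equivRatAlgHom F ℂ)] at h1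
  exact h1

/-- Every linear functional is given by the trace form. -/
theorem exists_dual (f : (∀ i, K i) →ₗ[ℚ] ℚ) : ∃ a : ∀ i, K i, ∀ x, f x = ∑ i, Algebra.trace ℚ (K i) (a i * x i) := by
  classical
  have h1 : ∀ i, ∃ a : K i, ∀ x, f (Pi.single i x) = Algebra.trace ℚ (K i) (a * x) := by
    intro i
    have hn := traceForm_nondegenerate ℚ (K i)
    let fi : K i →ₗ[ℚ] ℚ := f.comp (LinearMap.single ℚ K i)
    refine ⟨((Algebra.traceForm ℚ (K i)).toDual hn).symm fi, fun x => ?_⟩
    have h2 := LinearMap.BilinForm.apply_toDual_symm_apply (hB := hn) fi x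
    rw [Algebra.traceForm_apply] at h2
    exact h2.symm
  choose a ha using h1
  refine ⟨a, fun x => ?_⟩
  have h2 : x = ∑ i, Pi.single i (x i) := by
    funext j
    simp
  conv_lhs => rw [h2]
  rw [map_sum]
  exact Finset.sum_congr rfl fun i _ => ha i (x i)

/-- The value of the trace form in terms of the embeddings. -/
theorem dual_ev (a x : ∀ i, K i) : ((∑ i, Algebra.trace ℚ (K i) (a i * x i) : ℚ) : ℂ) =
    ∑ p : Σ i, (K i →+* ℂ), ev p a * ev p x := by
  push_cast
  rw [Fintype.sum_sigma]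
  refine Finset.sum_congr rfl fun i _ => ?_
  rw [trace_embeddings]
  exact Finset.sum_congr rfl fun φ _ => map_mul _ _ _

theorem eq_zero_of_trace {F : Type} [Field F] [NumberField F] {x : F}
    (h : ∀ a : F, Algebra.trace ℚ F (a * x) = 0) : x = 0 := by
  have hn := traceForm_nondegenerate ℚ F
  refine hn.1 x fun a => ?_
  rw [Algebra.traceForm_apply, mul_comm]
  exact h a

end trace

end Pool.Agent.K6.H7.CM1
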