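import Pool.Agent.K6.H7.CM1.Tan2

set_option autoImplicit false
set_option linter.unusedSectionVars false
set_option linter.unusedSimpArgs false

/-!
# Algebraic groups which contain the periods of a 1-motive

If the complex structure of the abelian variety is in the Lie algebra of the group, then the group
contains the Mumford-Tate group.
-/

open Module Matrix Pool.Agent.Y102 Pool.Agent.R917.OM Pool.Agent.R917.BX Pool.Agent.W516.DR
  Pool.Agent.H204R3.GP Pool.Agent.N208.UR Pool.Agent.TH119.MX Pool.Agent.R917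
  Pool.Agent.H204R3.SP Pool.Agent.W516.KC

noncomputable section

namespace Pool.Agent.K6.H7.CM1

open Pool.Agent.N208.OneM Pool.Agent.R917.DT

variable {g n s : ℕ} {A : AbVarG g} {u : Fin n → Fin g → ℂ} {v : Fin s → Fin g → ℂ}
  {ℓ : Fin n → Fin s → ℂ} {G : Subgroup (GL (Betti g n s) ℂ)}

/-- The set of the matrices in the group. -/
def mats (G : Subgroup (GL (Betti g n s) ℂ)) : Set (Matrix (RI g n s) (RI g n s) ℂ) :=
  {M | ∃ x ∈ G, (x : Matrix (Betti g n s) (Betti g n s) ℂ) = M}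

/-- The image of the Lie algebra of the group in the endomorphisms of the first homology of the
abelian variety. -/
def hh (A : AbVarG g) (G : Subgroup (GL (Betti g n s) ℂ)) :
    Submodule ℚ (Module.End ℚ A.toAbVar.H1) :=
  aa (gg A.toAbVar n s (mats G))

theorem ptM (hG : IsAlgebraicSubgroup G) (hP : ContainsPeriods A u v ℓ G) :
    PtM A.toAbVar (dat A u v ℓ) (mats G) := by
  obtain ⟨T, hT, q, hq, hqT⟩ := hP
  rw [periodMatrix_eq] at hqT
  exact ptM_of hG hT hq hqT

/-- **The Lie algebra is full.** -/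
theorem hh_full (hG : IsAlgebraicSubgroup G) (hP : ContainsPeriods A u v ℓ G) :
    A.toAbVar.Full (hh A G) := (gg_Lg (ptM hG hP)).full

theorem hh_RC (hG : IsAlgebraicSubgroup G) (hP : ContainsPeriods A u v ℓ G) :
    RC (hh A G) := aa_RC (ptM hG hP)

theorem hh_le_MA (hG : IsAlgebraicSubgroup G) (hle : G ≤ mumfordTate A u v ℓ)
    (hP : ContainsPeriods A u v ℓ G) : hh A G ≤ A.toAbVar.MA := aa_le_MA hle (ptM hG hP)

/-- The Mumford-Tate group is contained in the group. -/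
theorem mt_le (hM : IsOneMotive A u v ℓ) (hG : IsAlgebraicSubgroup G)
    (hP : ContainsPeriods A u v ℓ G)
    (hJ : ∀ r : ℝ →ₗ[ℚ] ℚ, A.toAbVar.cmpE r AbVar.JJ ∈ hh A G) : mumfordTate A u v ℓ ≤ G := by
  have hpt := ptM hG hP
  obtain ⟨K₁, hK₁, hrat⟩ := exists_rat_mult A (pt (dat A u v ℓ)) (by
    rintro (i | l)
    · exact Or.inl (hM.point i)
    · exact Or.inl (hM.dual l))
  have hLg := gg_Lg hpt
  obtain ⟨W, hW, hW1, hW2⟩ := weight hpt
  have hl : ∀ r : ℝ →ₗ[ℚ] ℚ, ∃ L ∈ gg A.toAbVar n s (mats G),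
      L.1 = A.toAbVar.cmpE r AbVar.JJ ∧ L.2.1 = 0 := by
    intro r
    obtain ⟨L, hL, h1⟩ := hJ r
    refine ⟨L - L.2.1 • W, Submodule.sub_mem _ hL (Submodule.smul_mem _ _ hW), ?_, ?_⟩
    · change L.1 - L.2.1 • W.1 = _
      rw [hW1, smul_zero, sub_zero]
      exact h1
    · change L.2.1 - L.2.1 * W.2.1 = 0
      rw [hW2, mul_one, sub_self]
  obtain ⟨ud⟩ := main2 hLg hrat
  have h1 : ∀ k, Stab (mats G) k (XJ A.toAbVar (dat A u v ℓ)) := by
    intro k
    refine stab_of_comp fun lam => ?_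
    rw [← mt_tJ]
    exact (ud.tJ_mem' hLg lam (hl (fr lam))).2 k
  have h2 : ∀ k, Stab (mats G) k (XW A.toAbVar (dat A u v ℓ)) := by
    intro k
    refine stab_of_comp fun lam => ?_
    rw [← mt_tW]
    exact (ud.tW_mem hLg ⟨hM.point, hM.neg, hM.sub, hM.log⟩ ⟨W, hW, hW1, hW2⟩ lam).2 k
  refine sInf_le ⟨hG, fun z hz => ?_⟩
  obtain ⟨x, hx, hxe⟩ := exp_mem hpt.grp fun k =>
    ((h2 k).smul ((Complex.log z).re : ℂ)).add ((h1 k).smul ((Complex.log z).im : ℂ))
  exact ⟨x, hx, deligne_exp A hz hxe⟩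

end Pool.Agent.K6.H7.CM1
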