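import Pool.Agent.K6.H7.CM1.Core

set_option autoImplicit false
set_option linter.unusedSectionVars false
set_option linter.unusedSimpArgs false

/-!
# Hodge tensors of products of abelian varieties with complex multiplication by a Galois field
-/

open Module Matrix TensorProduct Pool.Agent.Y102 Pool.Agent.H204R3.GP

noncomputable section

namespace Pool.Agent.K6.H7.CM1

variable {ι : Type} {K : ι → Type} [∀ i, Field (K i)] [∀ i, NumberField (K i)]
  {L : Type} [Field L] [NumberField L]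

/-- the composition of a complex embedding and an automorphism -/
def tw (φ : L →+* ℂ) (σ : L ≃ₐ[ℚ] L) : L →+* ℂ := φ.comp (σ : L →+* L)

/-- the composition of a complex embedding of `L` and an embedding of one of the fields in `L` -/
def cp (φ : L →+* ℂ) (p : Σ i, (K i →ₐ[ℚ] L)) : Σ i, (K i →+* ℂ) :=
  ⟨p.1, φ.comp (p.2 : K p.1 →+* L)⟩

/-- the action of the automorphisms of `L` on the embeddings in `L` -/
def gl (σ : L ≃ₐ[ℚ] L) (p : Σ i, (K i →ₐ[ℚ] L)) : Σ i, (K i →ₐ[ℚ] L) :=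
  ⟨p.1, (σ : L →ₐ[ℚ] L).comp p.2⟩

theorem cp_gl (φ : L →+* ℂ) (σ : L ≃ₐ[ℚ] L) (p : Σ i, (K i →ₐ[ℚ] L)) :
    cp φ (gl σ p) = cp (tw φ σ) p := rfl

theorem sg_conj' {Φ : ∀ i, Set (K i →+* ℂ)} (hΦ : ∀ i, IsCMType (Φ i)) (i : ι)
    (φ : K i →+* ℂ) :
    sg Φ ⟨i, NumberField.ComplexEmbedding.conjugate φ⟩ = -sg Φ ⟨i, φ⟩ := by
  unfold sg
  by_cases h : φ ∈ Φ i
  · rw [if_pos h, if_neg ((hΦ i φ).1 h)]
  · rw [if_neg h, if_pos (by
      by_contra h2
      exact h ((hΦ i φ).2 h2))]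
    rfl

theorem sg_conj {Φ : ∀ i, Set (K i →+* ℂ)} (hΦ : ∀ i, IsCMType (Φ i)) (φ : L →+* ℂ)
    (p : Σ i, (K i →ₐ[ℚ] L)) :
    sg Φ (cp (NumberField.ComplexEmbedding.conjugate φ) p) = -sg Φ (cp φ p) :=
  sg_conj' hΦ p.1 (φ.comp (p.2 : K p.1 →+* L))

theorem prod_zpow_eq {κ : Type} (s : Finset κ) {z : ℂ} (hz : z ≠ 0) (f : κ → ℤ) :
    ∏ l ∈ s, z ^ f l = z ^ ∑ l ∈ s, f l := by
  classical
  induction s using Finset.induction_on with
  | empty => rw [Finset.prod_empty, Finset.sum_empty, zpow_zero]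
  | insert a s ha ih => rw [Finset.prod_insert ha, Finset.sum_insert ha, ih, zpow_add₀ hz]

namespace CMData

variable {g : ℕ} {A : AbVar g} {Φ : ∀ i, Set (K i →+* ℂ)} (D : CMData A Φ)

/-- The coordinates. -/
theorem exists_L (hΦ : ∀ i, IsCMType (Φ i)) (p : Σ i, (K i →+* ℂ)) :
    ∃ R : (Fin g → ℂ) →ₗ[ℝ] ℂ, (∀ x, R (A.per (D.E x)) = ev p x) ∧
      ∀ z : ℂ, ‖z‖ = 1 → ∀ u, R (z • u) = z ^ sg Φ p * R u := by
  obtain ⟨i, φ⟩ := p
  by_cases hφ : φ ∈ Φ i
  · refine ⟨(((LinearMap.proj (⟨φ, hφ⟩ : Φ i) : (Φ i → ℂ) →ₗ[ℂ] ℂ).comp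
      (LinearMap.proj i : (∀ i, Φ i → ℂ) →ₗ[ℂ] (Φ i → ℂ))).comp
        D.T.symm.toLinearMap).restrictScalars ℝ, fun x => ?_, fun z hz u => ?_⟩
    · change D.T.symm (A.per (D.E x)) i ⟨φ, hφ⟩ = φ (x i)
      rw [D.per_E, LinearEquiv.symm_apply_apply]
    · change D.T.symm (z • u) i ⟨φ, hφ⟩ = z ^ sg Φ ⟨i, φ⟩ * D.T.symm u i ⟨φ, hφ⟩
      unfold sg
      rw [if_pos hφ, zpow_one, map_smul]
      rfl
  · have hc : NumberField.ComplexEmbedding.conjugate φ ∈ Φ i := by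
      by_contra h2
      exact hφ ((hΦ i φ).2 h2)
    refine ⟨Complex.conjAe.toLinearMap.comp
      ((((LinearMap.proj (⟨_, hc⟩ : Φ i) : (Φ i → ℂ) →ₗ[ℂ] ℂ).comp
      (LinearMap.proj i : (∀ i, Φ i → ℂ) →ₗ[ℂ] (Φ i → ℂ))).comp
        D.T.symm.toLinearMap).restrictScalars ℝ), fun x => ?_, fun z hz u => ?_⟩
    · change (starRingEnd ℂ) (D.T.symm (A.per (D.E x)) i ⟨_, hc⟩) = φ (x i)
      rw [D.per_E, LinearEquiv.symm_apply_apply]
      change (starRingEnd ℂ) (NumberField.ComplexEmbedding.conjugate φ (x i)) = φ (x i)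
      rw [NumberField.ComplexEmbedding.conjugate_coe_eq, Complex.conj_conj]
    · change (starRingEnd ℂ) (D.T.symm (z • u) i ⟨_, hc⟩) = z ^ sg Φ ⟨i, φ⟩ *
        (starRingEnd ℂ) (D.T.symm u i ⟨_, hc⟩)
      have h1 : D.T.symm (z • u) i ⟨_, hc⟩ = z * D.T.symm u i ⟨_, hc⟩ := by
        rw [map_smul]
        rfl
      unfold sg
      rw [if_neg hφ, h1, map_mul, _root_.zpow_neg_one, Complex.inv_eq_conj hz]

variable {m : ℕ}

/-- The rational tensor of a word. -/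
def psi (w : Fin m × Fin 2 → Σ i, (K i →ₐ[ℚ] L)) (a : L) :
    MultilinearMap ℚ (fun _ : Fin m × Fin 2 => A.H1) ℚ :=
  ((Algebra.trace ℚ L).comp (LinearMap.mulLeft ℚ a)).compMultilinearMap
    ((MultilinearMap.mkPiAlgebra ℚ (Fin m × Fin 2) L).compLinearMap fun l =>
      ((w l).2.toLinearMap.comp (LinearMap.proj (w l).1)).comp D.E.symm.toLinearMap)

theorem psi_apply (w : Fin m × Fin 2 → Σ i, (K i →ₐ[ℚ] L)) (a : L) (v : Fin m × Fin 2 → A.H1) :
    D.psi w a v = Algebra.trace ℚ L (a * ∏ l, (w l).2 (D.E.symm (v l) (w l).1)) := by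
  unfold psi
  rw [LinearMap.compMultilinearMap_apply, MultilinearMap.compLinearMap_apply,
    MultilinearMap.mkPiAlgebra_apply]
  rfl

/-- **The tensors of the balanced words are Hodge tensors.** -/
theorem hodge_psi (hΦ : ∀ i, IsCMType (Φ i)) {w : Fin m × Fin 2 → Σ i, (K i →ₐ[ℚ] L)}
    (hw : ∀ φ : L →+* ℂ, ∑ l, sg Φ (cp φ (w l)) = 0) (a : L) :
    IsHodgeTensor (A.per : A.H1 →+ (Fin g → ℂ)) (D.psi w a) := by
  choose R hL1 hL2 using D.exists_L hΦ
  let S : (L →+* ℂ) → (ℂ →ₗ[ℝ] ℝ) := fun φ => Complex.reLm.comp (LinearMap.mulLeft ℝ (φ a))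
  refine ⟨∑ φ : L →+* ℂ, (S φ).compMultilinearMap
    ((MultilinearMap.mkPiAlgebra ℝ (Fin m × Fin 2) ℂ).compLinearMap fun l =>
      R (cp φ (w l))), fun v => ?_, fun z hz u => ?_⟩
  · rw [_root_.sum_apply]
    have h1 : ∀ φ : L →+* ℂ, ((S φ).compMultilinearMap
        ((MultilinearMap.mkPiAlgebra ℝ (Fin m × Fin 2) ℂ).compLinearMap fun l =>
          R (cp φ (w l)))) (fun l => A.per (v l)) =
        (φ (a * ∏ l, (w l).2 (D.E.symm (v l) (w l).1))).re := by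
      intro φ
      have h3 : φ (a * ∏ l, (w l).2 (D.E.symm (v l) (w l).1)) =
          φ a * ∏ l, φ ((w l).2 (D.E.symm (v l) (w l).1)) := by
        rw [map_mul, map_prod]
      rw [LinearMap.compMultilinearMap_apply, MultilinearMap.compLinearMap_apply,
        MultilinearMap.mkPiAlgebra_apply, h3]
      have h2 : ∀ l, R (cp φ (w l)) (A.per (v l)) =
          φ ((w l).2 (D.E.symm (v l) (w l).1)) := by
        intro l
        have h3 := hL1 (cp φ (w l)) (D.E.symm (v l))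
        rw [LinearEquiv.apply_symm_apply] at h3
        exact h3
      rw [Finset.prod_congr rfl fun l _ => h2 l]
      rfl
    refine (Finset.sum_congr rfl fun φ _ => h1 φ).trans ?_
    rw [psi_apply, ← Complex.re_sum, ← trace_embeddings, Complex.ratCast_re]
  · rw [_root_.sum_apply, _root_.sum_apply]
    refine Finset.sum_congr rfl fun φ _ => ?_
    rw [LinearMap.compMultilinearMap_apply, LinearMap.compMultilinearMap_apply]
    congr 1
    rw [MultilinearMap.compLinearMap_apply, MultilinearMap.compLinearMap_apply,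
      MultilinearMap.mkPiAlgebra_apply, MultilinearMap.mkPiAlgebra_apply,
      Finset.prod_congr rfl fun l _ => hL2 _ z hz (u l), Finset.prod_mul_distrib,
      prod_zpow_eq _ (by
        intro h0
        rw [h0, norm_zero] at hz
        exact zero_ne_one hz), hw, zpow_zero, one_mul]

/-- The relations of the balanced words. -/
theorem word (hΦ : ∀ i, IsCMType (Φ i)) {w : Fin m × Fin 2 → Σ i, (K i →ₐ[ℚ] L)}
    (hw : ∀ φ : L →+* ℂ, ∑ l, sg Φ (cp φ (w l)) = 0) {θ : ∀ i, K i}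
    (hθ : D.act θ ∈ A.MA) : ∑ l, (w l).2 (θ (w l).1) = 0 := by
  refine eq_zero_of_trace fun a => ?_
  have h1 := hθ m _ (D.hodge_psi hΦ hw a) fun _ => D.E 1
  rw [Finset.mul_sum, map_sum, ← h1]
  refine Finset.sum_congr rfl fun k _ => ?_
  rw [psi_apply]
  congr 2
  rw [Finset.prod_eq_single k]
  · rw [Function.update_self, act_E, mul_one, LinearEquiv.symm_apply_apply]
  · intro l _ hl
    rw [Function.update_of_ne hl, LinearEquiv.symm_apply_apply, Pi.one_apply, map_one]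
  · intro h
    exact absurd (Finset.mem_univ _) h

end CMData

/-! ### Words with integral multiplicities -/

section words

/-- The word of a family of integers. -/
theorem exists_word {P : Type} [Fintype P] (c : P → P) (n : P → ℤ) :
    ∃ (m : ℕ) (w : Fin m × Fin 2 → P), ∀ (M : Type) [AddCommGroup M]
      (F : P → M), (∀ p, F (c p) = -F p) → ∑ l, F (w l) = (2 : ℤ) • ∑ p, n p • F p := by
  classical
  let κ : Type := Σ p : P, Fin (n p).natAbs
  let e : κ ≃ Fin (Fintype.card κ) := Fintype.equivFin κ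
  let w0 : P → P := fun p => if 0 ≤ n p then p else c p
  refine ⟨Fintype.card κ, fun l => w0 (e.symm l.1).1, fun M _ F hF => ?_⟩
  rw [Fintype.sum_prod_type]
  have h1 : ∀ l : Fin (Fintype.card κ), ∑ b : Fin 2, F (w0 (e.symm (l, b).1).1) =
      (2 : ℤ) • F (w0 (e.symm l).1) := by
    intro l
    rw [Fin.sum_univ_two, two_smul]
  rw [Finset.sum_congr rfl fun l _ => h1 l, ← Finset.smul_sum,
    Equiv.sum_comp e.symm (fun k : κ => F (w0 k.1)), Fintype.sum_sigma]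
  congr 1
  refine Finset.sum_congr rfl fun p _ => ?_
  change ∑ _y : Fin (n p).natAbs, F (w0 p) = _
  rw [Finset.sum_const, Finset.card_univ, Fintype.card_fin]
  by_cases hp : 0 ≤ n p
  · have h2 : w0 p = p := if_pos hp
    rw [h2, ← natCast_zsmul, Int.natAbs_of_nonneg hp]
  · have h2 : w0 p = c p := if_neg hp
    rw [h2, hF, ← natCast_zsmul, Int.natCast_natAbs, abs_of_neg (not_le.1 hp), smul_neg, neg_smul,
      neg_neg]

/-- Common denominators. -/
theorem exists_den {P : Type} [Fintype P] (n : P → ℚ) :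
    ∃ (N : ℕ) (n' : P → ℤ), N ≠ 0 ∧ ∀ p, ((n' p : ℤ) : ℚ) = N * n p := by
  classical
  refine ⟨∏ p, (n p).den, fun p => (n p).num * ∏ q ∈ Finset.univ.erase p, ((n q).den : ℤ),
    Finset.prod_ne_zero_iff.2 fun p _ => (n p).den_nz, fun p => ?_⟩
  rw [← Finset.mul_prod_erase _ _ (Finset.mem_univ p)]
  push_cast
  have h1 : ((n p).den : ℚ) * n p = (n p).num := Rat.den_mul_eq_num (n p)
  rw [mul_right_comm, h1]

end words

namespace CMData

variable {g : ℕ} {A : AbVar g} {Φ : ∀ i, Set (K i →+* ℂ)} (D : CMData A Φ)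

theorem act_conj (hΦ : ∀ i, IsCMType (Φ i)) {c : L ≃ₐ[ℚ] L}
    (hc : ∀ φ : L →+* ℂ, tw φ c = NumberField.ComplexEmbedding.conjugate φ) {θ : ∀ i, K i}
    (hθ : D.act θ ∈ A.MA) (p : Σ i, (K i →ₐ[ℚ] L)) : (gl c p).2 (θ p.1) = -p.2 (θ p.1) := by
  have h1 := D.word hΦ (m := 1) (w := fun l => if l.2 = 0 then p else gl c p) (fun φ => by
    rw [Fintype.sum_prod_type, Fin.sum_univ_one, Fin.sum_univ_two]
    change sg Φ (cp φ p) + sg Φ (cp φ (gl c p)) = 0
    rw [cp_gl, hc, sg_conj hΦ, add_neg_cancel]) hθ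
  rw [Fintype.sum_prod_type, Fin.sum_univ_one, Fin.sum_univ_two] at h1
  change p.2 (θ p.1) + (gl c p).2 (θ p.1) = 0 at h1
  rw [← eq_neg_iff_add_eq_zero.2 (by rw [add_comm]; exact h1)]

variable [Fintype ι]

/-- **The relations of the Hodge group.** -/
theorem relZ (hΦ : ∀ i, IsCMType (Φ i)) {c : L ≃ₐ[ℚ] L}
    (hc : ∀ φ : L →+* ℂ, tw φ c = NumberField.ComplexEmbedding.conjugate φ)
    {n : (Σ i, (K i →ₐ[ℚ] L)) → ℤ}
    (hn : ∀ φ : L →+* ℂ, ∑ p, n p * sg Φ (cp φ p) = 0) {θ : ∀ i, K i}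
    (hθ : D.act θ ∈ A.MA) : ∑ p, n p • p.2 (θ p.1) = 0 := by
  obtain ⟨m, w, hw⟩ := exists_word (fun p : Σ i, (K i →ₐ[ℚ] L) => gl c p) n
  have h1 := D.word hΦ (w := w) (fun φ => by
    rw [hw ℤ (fun p => sg Φ (cp φ p)) fun p => by
      change sg Φ (cp φ (gl c p)) = -sg Φ (cp φ p)
      rw [cp_gl, hc, sg_conj hΦ]]
    have h2 : ∑ p, n p • sg Φ (cp φ p) = 0 := hn φ
    rw [h2, smul_zero]) hθ
  rw [hw L (fun p => p.2 (θ p.1)) fun p => D.act_conj hΦ hc hθ p] at h1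
  have h3 : (2 : ℤ) • ∑ p : Σ i, (K i →ₐ[ℚ] L), n p • p.2 (θ p.1) =
      (2 : L) * ∑ p : Σ i, (K i →ₐ[ℚ] L), n p • p.2 (θ p.1) := by
    rw [zsmul_eq_mul]
    norm_num
  rw [h3] at h1
  exact (mul_eq_zero.1 h1).resolve_left two_ne_zero

/-- **The relations of the Hodge group**, with rational coefficients. -/
theorem rel (hΦ : ∀ i, IsCMType (Φ i)) {c : L ≃ₐ[ℚ] L}
    (hc : ∀ φ : L →+* ℂ, tw φ c = NumberField.ComplexEmbedding.conjugate φ)
    {n : (Σ i, (K i →ₐ[ℚ] L)) → ℚ}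
    (hn : ∀ φ : L →+* ℂ, ∑ p, n p * (sg Φ (cp φ p) : ℚ) = 0) {θ : ∀ i, K i}
    (hθ : D.act θ ∈ A.MA) : ∑ p, n p • p.2 (θ p.1) = 0 := by
  obtain ⟨N, n', hN, hn'⟩ := exists_den n
  have h1 := D.relZ hΦ hc (n := n') (fun φ => by
    have h2 := hn φ
    have h3 : ((∑ p, n' p * sg Φ (cp φ p) : ℤ) : ℚ) = N * ∑ p, n p * (sg Φ (cp φ p) : ℚ) := by
      push_cast
      rw [Finset.mul_sum]
      refine Finset.sum_congr rfl fun p _ => ?_
      rw [hn', mul_assoc]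
    rw [h2, mul_zero] at h3
    exact_mod_cast h3) hθ
  have h2 : ∑ p : Σ i, (K i →ₐ[ℚ] L), n' p • p.2 (θ p.1) =
      (N : ℚ) • ∑ p : Σ i, (K i →ₐ[ℚ] L), n p • p.2 (θ p.1) := by
    rw [Finset.smul_sum]
    refine Finset.sum_congr rfl fun p _ => ?_
    rw [smul_smul, ← hn', Int.cast_smul_eq_zsmul]
  rw [h2] at h1
  exact (smul_eq_zero.1 h1).resolve_left (by exact_mod_cast hN)

end CMData

end Pool.Agent.K6.H7.CM1
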