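import Pool.Agent.N208.OU.Main

set_option autoImplicit false
set_option linter.unusedSectionVars false
set_option linter.unusedSimpArgs false

/-!
# Algebraic subgroups of the Mumford-Tate group of a 1-motive

The Lie algebra of an algebraic subgroup of the Mumford-Tate group of a 1-motive over the abelian
variety `A` acts on `H_1(A, ℚ)` by elements which annihilate all Hodge tensors.
-/

open Module Matrix Pool.Agent.Y102 Pool.Agent.R917.OM Pool.Agent.R917.BX Pool.Agent.W516.DR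
  Pool.Agent.H204R3.GP Pool.Agent.N208.UR Pool.Agent.TH119.MX Pool.Agent.R917
  Pool.Agent.H204R3.SP

noncomputable section

namespace Pool.Agent.K6.H7.CM1

/-! ### The block of the abelian variety -/

section block

variable {g n s : ℕ}

/-- the block of the abelian variety -/
def blk (x : Matrix (RI g n s) (RI g n s) ℂ) : Matrix (Fin (2 * g)) (Fin (2 * g)) ℂ :=
  Matrix.of fun j j' => x (Sum.inl j) (Sum.inl j')

theorem blk_apply (x : Matrix (RI g n s) (RI g n s) ℂ) (j j' : Fin (2 * g)) :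
    blk x j j' = x (Sum.inl j) (Sum.inl j') := rfl

theorem blk_one : blk (1 : Matrix (RI g n s) (RI g n s) ℂ) = 1 := by
  ext j j'
  rw [blk_apply, Matrix.one_apply, Matrix.one_apply]
  by_cases h : j = j'
  · rw [if_pos h, if_pos (by rw [h])]
  · rw [if_neg h, if_neg (fun h' => h (Sum.inl_injective h'))]

theorem blk_mul {x y : Matrix (RI g n s) (RI g n s) ℂ} (hx : x ∈ Fl (lev g n s) 0)
    (hy : y ∈ Fl (lev g n s) 0) : blk (x * y) = blk x * blk y := by
  ext j j'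
  rw [blk_apply, Matrix.mul_apply, Matrix.mul_apply, Fintype.sum_sum_type]
  have h0 : ∑ k : Fin s ⊕ Fin n, x (Sum.inl j) (Sum.inr k) * y (Sum.inr k) (Sum.inl j') = 0 := by
    refine Finset.sum_eq_zero fun k _ => ?_
    rcases k with l | i
    · rw [hy (Sum.inr (Sum.inl l)) (Sum.inl j') (by simp [lev]), mul_zero]
    · rw [hx (Sum.inl j) (Sum.inr (Sum.inr i)) (by simp [lev]), zero_mul]
  rw [h0, add_zero]
  rfl

/-- the block as a linear map -/
def blkL (g n s : ℕ) : Matrix (RI g n s) (RI g n s) ℂ →ₗ[ℂ] Matrix (Fin (2 * g)) (Fin (2 * g)) ℂ where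
  toFun := blk
  map_add' _ _ := rfl
  map_smul' _ _ := rfl

theorem pow_blk {X : Matrix (RI g n s) (RI g n s) ℂ} (hX : X ∈ Fl (lev g n s) 0) (k : ℕ) :
    X ^ k ∈ Fl (lev g n s) 0 ∧ blk (X ^ k) = blk X ^ k := by
  induction k with
  | zero =>
    rw [pow_zero, pow_zero]
    exact ⟨one_Fl, blk_one⟩
  | succ k ih =>
    rw [pow_succ, pow_succ]
    exact ⟨Fl_mul ih.1 hX, by rw [blk_mul ih.1 hX, ih.2]⟩

section norms

attribute [local instance] Matrix.linftyOpNormedRing Matrix.linftyOpNormedAlgebra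

theorem blk_exp {X : Matrix (RI g n s) (RI g n s) ℂ} (hX : X ∈ Fl (lev g n s) 0) :
    blk (NormedSpace.exp X) = NormedSpace.exp (blk X) := by
  have h1 := NormedSpace.exp_series_hasSum_exp' (𝕂 := ℂ) X
  have h2 := (LinearMap.toContinuousLinearMap (blkL g n s)).hasSum h1
  have h3 := NormedSpace.exp_series_hasSum_exp' (𝕂 := ℂ) (blk X)
  have h4 : (fun k : ℕ => (LinearMap.toContinuousLinearMap (blkL g n s))
      (((k.factorial : ℂ)⁻¹) • X ^ k)) = fun k : ℕ => ((k.factorial : ℂ)⁻¹) • blk X ^ k := by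
    funext k
    rw [map_smul, ← (pow_blk hX k).2]
    rfl
  rw [h4] at h2
  exact h2.unique h3

end norms

end block

/-! ### Multilinear forms -/

section forms

variable {g : ℕ} (A : AbVar g) {κ : Type} [Fintype κ] [DecidableEq κ]

/-- The complex multilinear form. -/
def mC (ψ : MultilinearMap ℚ (fun _ : κ => A.H1) ℚ) :
    MultilinearMap ℂ (fun _ : κ => Fin (2 * g) → ℂ) ℂ :=
  ∑ I : κ → Fin (2 * g), ((ψ fun l => A.bas (I l) : ℚ) : ℂ) •
    (MultilinearMap.mkPiAlgebra ℂ κ ℂ).compLinearMap fun l =>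
      (LinearMap.proj (I l) : (Fin (2 * g) → ℂ) →ₗ[ℂ] ℂ)

theorem mC_apply (ψ : MultilinearMap ℚ (fun _ : κ => A.H1) ℚ) (v : κ → Fin (2 * g) → ℂ) :
    mC A ψ v = ∑ I : κ → Fin (2 * g), ((ψ fun l => A.bas (I l) : ℚ) : ℂ) * ∏ l, v l (I l) := by
  unfold mC
  rw [_root_.sum_apply]
  refine Finset.sum_congr rfl fun I _ => ?_
  rw [_root_.smul_apply, MultilinearMap.compLinearMap_apply,
    MultilinearMap.mkPiAlgebra_apply, smul_eq_mul]
  rfl

/-- the complex vector of a rational vector -/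
def cv (w : A.H1) : Fin (2 * g) → ℂ := fun j => ((w j : ℚ) : ℂ)

theorem mC_cv (ψ : MultilinearMap ℚ (fun _ : κ => A.H1) ℚ) (w : κ → A.H1) :
    mC A ψ (fun l => cv A (w l)) = ((ψ w : ℚ) : ℂ) := by
  have h1 : w = fun p => ∑ j, w p j • A.bas j := by
    funext p
    conv_lhs => rw [← A.bas.sum_repr (w p)]
    rfl
  have h2 : ψ w = ∑ J : κ → Fin (2 * g), (∏ p, w p (J p)) * ψ fun p => A.bas (J p) := by
    conv_lhs => rw [h1]
    rw [MultilinearMap.map_sum]
    refine Finset.sum_congr rfl fun J _ => ?_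
    rw [MultilinearMap.map_smul_univ, smul_eq_mul]
  rw [mC_apply, h2]
  push_cast
  refine Finset.sum_congr rfl fun J _ => ?_
  rw [mul_comm]
  rfl

theorem mC_real (ψ : MultilinearMap ℚ (fun _ : κ => A.H1) ℚ) (u : κ → Fin g → ℂ) :
    mC A ψ (fun l j => ((A.lam.repr (u l) j : ℝ) : ℂ)) = ((A.Phi ψ u : ℝ) : ℂ) := by
  rw [mC_apply]
  unfold AbVar.Phi
  rw [_root_.sum_apply]
  push_cast
  refine Finset.sum_congr rfl fun I _ => ?_
  rw [Pi.smul_apply, MultilinearMap.compLinearMap_apply,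
    MultilinearMap.mkPiAlgebra_apply, smul_eq_mul]
  push_cast
  rfl

/-- the matrix of the Riemann form -/
def Om : Matrix (Fin (2 * g)) (Fin (2 * g)) ℂ :=
  Matrix.of fun i j => ((A.om (A.bas i) (A.bas j) : ℚ) : ℂ)

theorem cv_vecMul_rm (X : Module.End ℚ A.H1) (w : A.H1) :
    cv A w ᵥ* Pool.Agent.R917.EC.rm X = cv A (X w) := by
  funext j
  have h1 := lin_sum (A := A) ((LinearMap.proj j : A.H1 →ₗ[ℚ] ℚ).comp X) w
  simp only [LinearMap.comp_apply, LinearMap.proj_apply, smul_eq_mul] at h1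
  unfold cv
  rw [h1]
  push_cast
  rfl

end forms

/-! ### The group -/

section grp

variable {g : ℕ} (A : AbVar g) (n s : ℕ) {m : ℕ}
  (ψ : MultilinearMap ℚ (fun _ : Fin m × Fin 2 => A.H1) ℚ)

/-- The action on the first homology of the abelian variety is a similitude, and respects the form
up to the power of the multiplier. -/
def Rel (a : Matrix (Fin (2 * g)) (Fin (2 * g)) ℂ) (ν : ℂ) : Prop :=
  ν ≠ 0 ∧ a * Om A * aᵀ = ν • Om A ∧
    ∀ v : Fin m × Fin 2 → Fin (2 * g) → ℂ, mC A ψ (fun l => v l ᵥ* a) = ν ^ m * mC A ψ v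

theorem Rel.one : Rel A ψ 1 1 := by
  refine ⟨one_ne_zero, ?_, fun v => ?_⟩
  · rw [Matrix.one_mul, Matrix.transpose_one, Matrix.mul_one, one_smul]
  · rw [one_pow, one_mul]
    congr 1
    funext l
    rw [Matrix.vecMul_one]

variable {A ψ}

theorem Rel.mul {a b : Matrix (Fin (2 * g)) (Fin (2 * g)) ℂ} {ν μ : ℂ} (ha : Rel A ψ a ν)
    (hb : Rel A ψ b μ) : Rel A ψ (a * b) (ν * μ) := by
  refine ⟨mul_ne_zero ha.1 hb.1, ?_, fun v => ?_⟩
  · have h1 : a * b * Om A * (a * b)ᵀ = a * (b * Om A * bᵀ) * aᵀ := by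
      rw [Matrix.transpose_mul]
      noncomm_ring
    rw [h1, hb.2.1, Matrix.mul_smul, Matrix.smul_mul, ha.2.1, smul_smul, mul_comm μ ν]
  · have h1 : (fun l => v l ᵥ* (a * b)) = fun l => (v l ᵥ* a) ᵥ* b := by
      funext l
      rw [Matrix.vecMul_vecMul]
    rw [h1, hb.2.2, ha.2.2, mul_pow]
    ring

theorem Rel.inv {a a' : Matrix (Fin (2 * g)) (Fin (2 * g)) ℂ} {ν : ℂ} (ha : Rel A ψ a ν)
    (h : a' * a = 1) : Rel A ψ a' ν⁻¹ := by
  have h0 := ha.1
  have h' : a * a' = 1 := mul_eq_one_comm.1 h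
  refine ⟨inv_ne_zero h0, ?_, fun v => ?_⟩
  · have h1 : Om A = ν • (a' * Om A * a'ᵀ) := by
      calc Om A = a' * (a * Om A * aᵀ) * a'ᵀ := by
            have h2 : aᵀ * a'ᵀ = 1 := by
              rw [← Matrix.transpose_mul, h, Matrix.transpose_one]
            calc Om A = (a' * a) * Om A * (aᵀ * a'ᵀ) := by
                  rw [h, h2, Matrix.one_mul, Matrix.mul_one]
              _ = _ := by noncomm_ring
        _ = ν • (a' * Om A * a'ᵀ) := by
            rw [ha.2.1, Matrix.mul_smul, Matrix.smul_mul]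
    conv_rhs => rw [h1]
    rw [smul_smul, inv_mul_cancel₀ h0, one_smul]
  · have h1 := ha.2.2 (fun l => v l ᵥ* a')
    have h2 : (fun l => (v l ᵥ* a') ᵥ* a) = v := by
      funext l
      rw [Matrix.vecMul_vecMul, h, Matrix.vecMul_one]
    rw [h2] at h1
    rw [h1, ← mul_assoc, ← mul_pow, inv_mul_cancel₀ h0, one_pow, one_mul]

variable (A ψ)

/-- The group of the form. -/
def HG : Subgroup (GL (RI g n s) ℂ) where
  carrier := {x | (x : Matrix (RI g n s) (RI g n s) ℂ) ∈ Fl (lev g n s) 0 ∧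
    ∃ ν, Rel A ψ (blk (x : Matrix (RI g n s) (RI g n s) ℂ)) ν}
  one_mem' := ⟨one_Fl, 1, by
    have h := Rel.one A ψ
    rwa [← blk_one (n := n) (s := s)] at h⟩
  mul_mem' := by
    rintro x y ⟨hx, ν, hν⟩ ⟨hy, μ, hμ⟩
    refine ⟨?_, ν * μ, ?_⟩
    · have h1 := Fl_mul hx hy
      rwa [add_zero] at h1
    · rw [Units.val_mul, blk_mul hx hy]
      exact hν.mul hμ
  inv_mem' := by
    rintro x ⟨hx, ν, hν⟩
    have h1 : ((x⁻¹ : GL (RI g n s) ℂ) : Matrix (RI g n s) (RI g n s) ℂ) ∈ Fl (lev g n s) 0 :=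
      inv_Fl hx x.inv_val
    refine ⟨h1, ν⁻¹, hν.inv ?_⟩
    rw [← blk_mul h1 hx, Units.inv_mul, blk_one]

variable {n s}

theorem mem_HG {x : GL (RI g n s) ℂ} : x ∈ HG A n s ψ ↔
    (x : Matrix (RI g n s) (RI g n s) ℂ) ∈ Fl (lev g n s) 0 ∧
    ∃ ν, Rel A ψ (blk (x : Matrix (RI g n s) (RI g n s) ℂ)) ν := Iff.rfl

variable (n s)

/-- the generic block -/
def pX : Matrix (Fin (2 * g)) (Fin (2 * g)) (MvPolynomial (RI g n s × RI g n s) ℚ) :=
  Matrix.of fun j j' => MvPolynomial.X (Sum.inl j, Sum.inl j')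

/-- the transformed Riemann form -/
def pO (j j' : Fin (2 * g)) : MvPolynomial (RI g n s × RI g n s) ℚ :=
  ∑ k, ∑ k', pX n s j k * pX n s j' k' * MvPolynomial.C (A.om (A.bas k) (A.bas k'))

/-- the transformed form -/
def pP (J : Fin m × Fin 2 → Fin (2 * g)) : MvPolynomial (RI g n s × RI g n s) ℚ :=
  ∑ I : Fin m × Fin 2 → Fin (2 * g), MvPolynomial.C (ψ fun l => A.bas (I l)) *
    ∏ l, pX n s (J l) (I l)

variable {n s}

theorem aeval_pX (x : Matrix (RI g n s) (RI g n s) ℂ) (j j' : Fin (2 * g)) :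
    MvPolynomial.aeval (fun b : RI g n s × RI g n s => x b.1 b.2) (pX n s j j') = blk x j j' := by
  unfold pX
  rw [Matrix.of_apply, MvPolynomial.aeval_X]
  rfl

theorem aeval_pO (x : Matrix (RI g n s) (RI g n s) ℂ) (j j' : Fin (2 * g)) :
    MvPolynomial.aeval (fun b : RI g n s × RI g n s => x b.1 b.2) (pO A n s j j') =
      (blk x * Om A * (blk x)ᵀ) j j' := by
  unfold pO
  rw [map_sum, Matrix.mul_apply, Finset.sum_congr rfl fun k _ => map_sum _ _ _,
    Finset.sum_comm]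
  refine Finset.sum_congr rfl fun k' _ => ?_
  rw [Matrix.transpose_apply, Matrix.mul_apply, Finset.sum_mul]
  refine Finset.sum_congr rfl fun k _ => ?_
  rw [map_mul, map_mul, aeval_pX, aeval_pX, MvPolynomial.aeval_C]
  change _ = blk x j k * ((A.om (A.bas k) (A.bas k') : ℚ) : ℂ) * blk x j' k'
  change blk x j k * blk x j' k' * ((A.om (A.bas k) (A.bas k') : ℚ) : ℂ) = _
  ring

theorem aeval_pP (x : Matrix (RI g n s) (RI g n s) ℂ) (J : Fin m × Fin 2 → Fin (2 * g)) :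
    MvPolynomial.aeval (fun b : RI g n s × RI g n s => x b.1 b.2) (pP A n s ψ J) =
      mC A ψ (fun l => (Pi.single (J l) (1 : ℂ) : Fin (2 * g) → ℂ) ᵥ* blk x) := by
  unfold pP
  rw [map_sum, mC_apply]
  refine Finset.sum_congr rfl fun I _ => ?_
  rw [map_mul, map_prod, MvPolynomial.aeval_C]
  congr 1
  refine Finset.prod_congr rfl fun l _ => ?_
  rw [aeval_pX, Matrix.single_one_vecMul]
  rfl

theorem mC_ext {a : Matrix (Fin (2 * g)) (Fin (2 * g)) ℂ} {c : ℂ}
    (h : ∀ J : Fin m × Fin 2 → Fin (2 * g),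
      mC A ψ (fun l => (Pi.single (J l) (1 : ℂ) : Fin (2 * g) → ℂ) ᵥ* a) =
        c * mC A ψ (fun l => (Pi.single (J l) (1 : ℂ) : Fin (2 * g) → ℂ)))
    (v : Fin m × Fin 2 → Fin (2 * g) → ℂ) :
    mC A ψ (fun l => v l ᵥ* a) = c * mC A ψ v := by
  have h1 : (mC A ψ).compLinearMap (fun _ => a.vecMulLinear) = c • mC A ψ := by
    refine Basis.ext_multilinear (fun _ => Pi.basisFun ℂ (Fin (2 * g))) fun J => ?_
    rw [MultilinearMap.compLinearMap_apply, _root_.smul_apply, smul_eq_mul]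
    simp only [Pi.basisFun_apply]
    exact h J
  exact congrArg (fun F : MultilinearMap ℂ (fun _ : Fin m × Fin 2 => Fin (2 * g) → ℂ) ℂ => F v) h1

theorem exists_om_ne (hg : 0 < g) : ∃ i j, A.om (A.bas i) (A.bas j) ≠ 0 := by
  by_contra hcon
  push Not at hcon
  have h1 : A.bas ⟨0, by omega⟩ = 0 := A.om_nondeg fun v => by
    have h2 : A.om (A.bas ⟨0, by omega⟩) = 0 := A.bas.ext fun j => by
      rw [hcon, LinearMap.zero_apply]
    rw [h2, LinearMap.zero_apply]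
  exact A.bas.ne_zero _ h1

/-- **The group of the form is algebraic.** -/
theorem HG_alg (hg : 0 < g) : ∃ I : Set (MvPolynomial (RI g n s × RI g n s) ℚ),
    ∀ x : GL (RI g n s) ℂ, x ∈ HG A n s ψ ↔ ∀ p ∈ I, MvPolynomial.aeval
      (fun b : RI g n s × RI g n s => (x : Matrix _ _ ℂ) b.1 b.2) p = 0 := by
  obtain ⟨i0, j0, h0⟩ := exists_om_ne A hg
  obtain ⟨w, hw⟩ : ∃ w, w = A.om (A.bas i0) (A.bas j0) := ⟨_, rfl⟩
  rw [← hw] at h0
  have h0' : (w : ℂ) ≠ 0 := by exact_mod_cast h0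
  refine ⟨{p | ∃ r r', lev g n s r' < lev g n s r + 0 ∧ p = MvPolynomial.X (r, r')} ∪
    {p | ∃ j j', p = MvPolynomial.C w * pO A n s j j' -
      MvPolynomial.C (A.om (A.bas j) (A.bas j')) * pO A n s i0 j0} ∪
    {p | ∃ J, p = MvPolynomial.C w ^ m * pP A n s ψ J -
      MvPolynomial.C (ψ fun l => A.bas (J l)) * pO A n s i0 j0 ^ m}, fun x => ?_⟩
  have hψ : ∀ J : Fin m × Fin 2 → Fin (2 * g),
      mC A ψ (fun l => (Pi.single (J l) (1 : ℂ) : Fin (2 * g) → ℂ)) =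
        ((ψ fun l => A.bas (J l) : ℚ) : ℂ) := by
    intro J
    rw [← mC_cv A ψ]
    congr 1
    funext l
    unfold cv AbVar.bas
    funext j
    rw [Pi.basisFun_apply, Pi.single_apply, Pi.single_apply]
    split_ifs <;> simp
  rw [mem_HG]
  constructor
  · rintro ⟨hx, ν, hν, h1, h2⟩ p ((⟨r, r', hr, rfl⟩ | ⟨j, j', rfl⟩) | ⟨J, rfl⟩)
    · rw [MvPolynomial.aeval_X]
      exact hx r r' hr
    · rw [map_sub, map_mul, map_mul, aeval_pO, aeval_pO, h1, MvPolynomial.aeval_C,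
        MvPolynomial.aeval_C, Matrix.smul_apply, Matrix.smul_apply]
      change (w : ℂ) * (ν * ((A.om (A.bas j) (A.bas j') : ℚ) : ℂ)) -
        ((A.om (A.bas j) (A.bas j') : ℚ) : ℂ) * (ν * ((A.om (A.bas i0) (A.bas j0) : ℚ) : ℂ)) = 0
      rw [← hw]
      ring
    · rw [map_sub, map_mul, map_mul, map_pow, map_pow, aeval_pO, aeval_pP, h1, h2, hψ,
        MvPolynomial.aeval_C, MvPolynomial.aeval_C, Matrix.smul_apply]
      change (w : ℂ) ^ m * (ν ^ m * ((ψ fun l => A.bas (J l) : ℚ) : ℂ)) -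
        ((ψ fun l => A.bas (J l) : ℚ) : ℂ) * (ν * ((A.om (A.bas i0) (A.bas j0) : ℚ) : ℂ)) ^ m = 0
      rw [← hw]
      ring
  · intro h
    have hx : (x : Matrix (RI g n s) (RI g n s) ℂ) ∈ Fl (lev g n s) 0 := by
      intro r r' hr
      have h1 := h _ (Or.inl (Or.inl ⟨r, r', hr, rfl⟩))
      rwa [MvPolynomial.aeval_X] at h1
    obtain ⟨a, ha⟩ : ∃ a, a = blk (x : Matrix (RI g n s) (RI g n s) ℂ) := ⟨_, rfl⟩
    obtain ⟨q, hq⟩ : ∃ q, q = (a * Om A * aᵀ) i0 j0 := ⟨_, rfl⟩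
    have h1 : ∀ j j', (w : ℂ) * (a * Om A * aᵀ) j j' = Om A j j' * q := by
      intro j j'
      have h2 := h _ (Or.inl (Or.inr ⟨j, j', rfl⟩))
      rw [map_sub, map_mul, map_mul, aeval_pO, aeval_pO, MvPolynomial.aeval_C,
        MvPolynomial.aeval_C, ← ha, ← hq] at h2
      exact sub_eq_zero.1 h2
    have h2 : ∀ J : Fin m × Fin 2 → Fin (2 * g), (w : ℂ) ^ m *
        mC A ψ (fun l => (Pi.single (J l) (1 : ℂ) : Fin (2 * g) → ℂ) ᵥ* a) =
        ((ψ fun l => A.bas (J l) : ℚ) : ℂ) * q ^ m := by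
      intro J
      have h3 := h _ (Or.inr ⟨J, rfl⟩)
      rw [map_sub, map_mul, map_mul, map_pow, map_pow, aeval_pO, aeval_pP,
        MvPolynomial.aeval_C, MvPolynomial.aeval_C, ← ha, ← hq] at h3
      exact sub_eq_zero.1 h3
    have h3 : a * Om A * aᵀ = (q / w) • Om A := by
      ext j j'
      rw [Matrix.smul_apply, smul_eq_mul, div_mul_eq_mul_div, eq_div_iff h0', mul_comm, h1,
        mul_comm]
    refine ⟨hx, q / w, ?_, ?_, ?_⟩
    · intro h4
      have h5 : ((x⁻¹ : GL (RI g n s) ℂ) : Matrix (RI g n s) (RI g n s) ℂ) ∈ Fl (lev g n s) 0 :=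
        inv_Fl hx x.inv_val
      have h6 : blk ((x⁻¹ : GL (RI g n s) ℂ) : Matrix (RI g n s) (RI g n s) ℂ) * a = 1 := by
        rw [ha, ← blk_mul h5 hx, Units.inv_mul, blk_one]
      rw [h4, zero_smul] at h3
      have h7 : Om A = 0 := by
        obtain ⟨a', ha'⟩ : ∃ a', a' = blk ((x⁻¹ : GL (RI g n s) ℂ) :
          Matrix (RI g n s) (RI g n s) ℂ) := ⟨_, rfl⟩
        rw [← ha'] at h6
        have h8 : aᵀ * a'ᵀ = 1 := by
          rw [← Matrix.transpose_mul, h6, Matrix.transpose_one]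
        calc Om A = (a' * a) * Om A * (aᵀ * a'ᵀ) := by
              rw [h6, h8, Matrix.one_mul, Matrix.mul_one]
          _ = a' * (a * Om A * aᵀ) * a'ᵀ := by noncomm_ring
          _ = 0 := by rw [h3, Matrix.mul_zero, Matrix.zero_mul]
      have h8 := congrFun (congrFun h7 i0) j0
      change ((A.om (A.bas i0) (A.bas j0) : ℚ) : ℂ) = 0 at h8
      rw [← hw] at h8
      exact h0' h8
    · rw [← ha]
      exact h3
    · rw [← ha]
      refine mC_ext A ψ fun J => ?_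
      rw [hψ, div_pow, div_mul_eq_mul_div, eq_div_iff (pow_ne_zero m h0'), mul_comm, h2, mul_comm]

end grp

end Pool.Agent.K6.H7.CM1
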