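import Pool.Agent.K6.H7.CM1.Tan

set_option autoImplicit false
set_option linter.unusedSectionVars false
set_option linter.unusedSimpArgs false

/-!
# Algebraic subgroups of the Mumford-Tate group of a 1-motive, II
-/

open Module Matrix Pool.Agent.Y102 Pool.Agent.R917.OM Pool.Agent.R917.BX Pool.Agent.W516.DR
  Pool.Agent.H204R3.GP Pool.Agent.N208.UR Pool.Agent.TH119.MX Pool.Agent.R917
  Pool.Agent.H204R3.SP Pool.Agent.W516.KC

noncomputable section

namespace Pool.Agent.K6.H7.CM1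

section hodge

variable {g : ℕ} (A : AbVar g)

theorem polar (z : ℂ) : ∃ w : ℂ, ‖w‖ = 1 ∧ ∀ u : Fin g → ℂ, z • u = ‖z‖ • (w • u) := by
  by_cases hz : z = 0
  · refine ⟨1, norm_one, fun u => ?_⟩
    rw [hz, norm_zero, zero_smul, zero_smul]
  · have h0 : ((‖z‖ : ℝ) : ℂ) ≠ 0 := by
      rw [Complex.ofReal_ne_zero]
      exact norm_ne_zero_iff.2 hz
    refine ⟨z / (‖z‖ : ℝ), ?_, fun u => ?_⟩
    · rw [norm_div, Complex.norm_real, norm_norm, div_self (norm_ne_zero_iff.2 hz)]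
    · rw [← Complex.coe_smul, smul_smul, mul_div_cancel₀ _ h0]

theorem conj_norm (z : ℂ) : z * (starRingEnd ℂ) z = (((‖z‖ ^ 2 : ℝ)) : ℂ) := by
  rw [Complex.mul_conj, Complex.normSq_eq_norm_sq]

theorem E_mul (z : ℂ) (u v : Fin g → ℂ) : A.E (z • u) (z • v) = ‖z‖ ^ 2 * A.E u v := by
  obtain ⟨w, hw, h⟩ := polar (g := g) z
  rw [h u, h v, map_smul (A.E (‖z‖ • (w • u))) ‖z‖, map_smul A.E ‖z‖, LinearMap.smul_apply,
    A.E_unit w hw, smul_eq_mul, smul_eq_mul]
  ring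

theorem E_lam (i j : Fin (2 * g)) : A.E (A.lam i) (A.lam j) = ((A.om (A.bas i) (A.bas j) : ℚ) : ℝ) := by
  rw [A.om_coe, AbVar.per_bas, AbVar.per_bas]

theorem hm_Om (z : ℂ) : hm A z * Om A * (hm A z)ᵀ = (z * (starRingEnd ℂ) z) • Om A := by
  ext i j
  have h1 : (hm A z * Om A * (hm A z)ᵀ) i j = ((A.E (z • A.lam i) (z • A.lam j) : ℝ) : ℂ) := by
    have h2 : A.E (z • A.lam i) (z • A.lam j) = ∑ l, (∑ k, A.lam.repr (z • A.lam i) k *
        ((A.om (A.bas k) (A.bas l) : ℚ) : ℝ)) * A.lam.repr (z • A.lam j) l := by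
      conv_lhs => rw [← A.lam.sum_repr (z • A.lam i), ← A.lam.sum_repr (z • A.lam j)]
      simp only [map_smul, map_sum, LinearMap.sum_apply, LinearMap.smul_apply, smul_eq_mul, E_lam]
      refine Finset.sum_congr rfl fun l _ => ?_
      rw [mul_comm]
    rw [h2, Matrix.mul_apply]
    push_cast
    refine Finset.sum_congr rfl fun l _ => ?_
    rw [Matrix.mul_apply]
    congr 1
  rw [h1, E_mul, Matrix.smul_apply, conj_norm, E_lam, smul_eq_mul]
  push_cast
  rfl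

theorem Phi_of_hodge {m : ℕ} {ψ : MultilinearMap ℚ (fun _ : Fin m × Fin 2 => A.H1) ℚ}
    (hψ : IsHodgeTensor (A.per : A.H1 →+ (Fin g → ℂ)) ψ) (z : ℂ)
    (u : Fin m × Fin 2 → Fin g → ℂ) :
    A.Phi ψ (fun l => z • u l) = (‖z‖ ^ 2) ^ m * A.Phi ψ u := by
  obtain ⟨Ψ, hΨ, hinv⟩ := hψ
  have hΨ' : Ψ = A.Phi ψ := by
    refine Basis.ext_multilinear (fun _ => A.lam) fun J => ?_
    have h2 : (fun p => A.lam (J p)) = fun p => A.per (A.bas (J p)) := by
      funext p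
      rw [AbVar.per_bas]
    rw [h2, AbVar.Phi_per]
    exact hΨ _
  obtain ⟨w, hw, h⟩ := polar (g := g) z
  have h1 : (fun l => z • u l) = fun l => ‖z‖ • (w • u l) := by
    funext l
    exact h _
  rw [h1, MultilinearMap.map_smul_univ, Finset.prod_const, Finset.card_univ, Fintype.card_prod,
    Fintype.card_fin, Fintype.card_fin, smul_eq_mul, ← hΨ', hinv w hw, mul_comm m 2, pow_mul]

theorem rel_hm {m : ℕ} {ψ : MultilinearMap ℚ (fun _ : Fin m × Fin 2 => A.H1) ℚ}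
    (hψ : IsHodgeTensor (A.per : A.H1 →+ (Fin g → ℂ)) ψ) {z : ℂ} (hz : z ≠ 0) :
    Rel A ψ (hm A z) (z * (starRingEnd ℂ) z) := by
  refine ⟨mul_ne_zero hz ((map_ne_zero _).2 hz), hm_Om A z, fun v => ?_⟩
  refine mC_ext A ψ (fun J => ?_) v
  have h1 : (fun l => (Pi.single (J l) (1 : ℂ) : Fin (2 * g) → ℂ) ᵥ* hm A z) =
      fun l j => ((A.lam.repr (z • A.lam (J l)) j : ℝ) : ℂ) := by
    funext l j
    rw [Matrix.single_one_vecMul]
    rfl
  have h2 : (fun l => (Pi.single (J l) (1 : ℂ) : Fin (2 * g) → ℂ)) =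
      fun l j => ((A.lam.repr (A.lam (J l)) j : ℝ) : ℂ) := by
    funext l j
    rw [Basis.repr_self, Finsupp.single_apply, Pi.single_apply]
    by_cases h : J l = j
    · rw [if_pos h, if_pos h.symm, Complex.ofReal_one]
    · rw [if_neg h, if_neg (Ne.symm h), Complex.ofReal_zero]
  rw [h1, h2, mC_real A ψ (fun l => z • A.lam (J l)), mC_real A ψ (fun l => A.lam (J l)),
    Phi_of_hodge A hψ z (fun l => A.lam (J l)), conj_norm]
  push_cast
  rfl

end hodge

section deligne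

variable {g n s : ℕ} (A : AbVar g) (d : Dt g n s)

theorem blk_XW : blk (XW A d) = 1 := by
  ext j j'
  rw [Matrix.one_apply]
  rfl

theorem blk_XJ : blk (XJ A d) = hm A Complex.I := by
  ext j j'
  rfl

/-- The Deligne torus is in the group of a Hodge tensor. -/
theorem deligne_HG {m : ℕ} {ψ : MultilinearMap ℚ (fun _ : Fin m × Fin 2 => A.H1) ℚ}
    (hψ : IsHodgeTensor (A.per : A.H1 →+ (Fin g → ℂ)) ψ) {z : ℂ} (hz : z ≠ 0) :
    Pool.Agent.N208.AM.eG (((Complex.log z).re : ℂ) • XW A d + ((Complex.log z).im : ℂ) • XJ A d) ∈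
      HG A n s ψ := by
  have hFl : ((Complex.log z).re : ℂ) • XW A d + ((Complex.log z).im : ℂ) • XJ A d ∈
      Fl (lev g n s) 0 :=
    Submodule.add_mem _ (Submodule.smul_mem _ _ (XW_Fl A d)) (Submodule.smul_mem _ _ (XJ_Fl A d))
  rw [mem_HG, Pool.Agent.N208.AM.eG_val]
  refine ⟨exp_Fl hFl, z * (starRingEnd ℂ) z, ?_⟩
  have h1 : blk (((Complex.log z).re : ℂ) • XW A d + ((Complex.log z).im : ℂ) • XJ A d) =
      hm A (Complex.log z) := by
    rw [hm_eq, ← blk_XW A d, ← blk_XJ A d]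
    rfl
  rw [blk_exp hFl, h1, ← hm_exp, Complex.exp_log hz]
  exact rel_hm A hψ hz

end deligne

section deriv

variable {g n s : ℕ} (A : AbVar g)

theorem hasDerivAt_e (Z : Matrix (Fin (2 * g)) (Fin (2 * g)) ℂ) (i j : Fin (2 * g)) :
    HasDerivAt (fun t : ℂ => NormedSpace.exp (t • Z) i j) (Z i j) 0 := by
  have h1 := hasDerivAt_entry 1 Z i j 0
  rw [zero_smul, NormedSpace.exp_zero, Matrix.mul_one, Matrix.one_mul] at h1
  simp only [Matrix.one_mul] at h1
  exact h1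

theorem hasDerivAt_mC {κ : Type} [Fintype κ] [DecidableEq κ]
    (ψ : MultilinearMap ℚ (fun _ : κ => A.H1) ℚ) (Z : Matrix (Fin (2 * g)) (Fin (2 * g)) ℂ)
    (v : κ → Fin (2 * g) → ℂ) :
    HasDerivAt (fun t : ℂ => mC A ψ (fun l => v l ᵥ* NormedSpace.exp (t • Z)))
      (∑ k, mC A ψ (Function.update v k (v k ᵥ* Z))) 0 := by
  have hx : ∀ (w : Fin (2 * g) → ℂ) (j : Fin (2 * g)),
      HasDerivAt (fun t : ℂ => (w ᵥ* NormedSpace.exp (t • Z)) j) ((w ᵥ* Z) j) 0 := by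
    intro w j
    simp only [Matrix.vecMul, dotProduct]
    exact HasDerivAt.fun_sum fun i _ => (hasDerivAt_e Z i j).const_mul (w i)
  have h0 : ∀ w : Fin (2 * g) → ℂ, w ᵥ* NormedSpace.exp ((0 : ℂ) • Z) = w := by
    intro w
    rw [zero_smul, NormedSpace.exp_zero, Matrix.vecMul_one]
  simp only [mC_apply]
  have h1 : HasDerivAt (fun t : ℂ => ∑ I : κ → Fin (2 * g),
      ((ψ fun l => A.bas (I l) : ℚ) : ℂ) * ∏ l, (v l ᵥ* NormedSpace.exp (t • Z)) (I l))
      (∑ I : κ → Fin (2 * g), ((ψ fun l => A.bas (I l) : ℚ) : ℂ) * ∑ k,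
        (∏ l ∈ Finset.univ.erase k, (v l ᵥ* NormedSpace.exp ((0 : ℂ) • Z)) (I l)) •
          (v k ᵥ* Z) (I k)) 0 := by
    refine HasDerivAt.fun_sum fun I _ => ?_
    exact (HasDerivAt.fun_finsetProd fun k _ => hx (v k) (I k)).const_mul _
  refine h1.congr_deriv ?_
  simp only [h0, Finset.mul_sum]
  rw [Finset.sum_comm]
  refine Finset.sum_congr rfl fun k _ => Finset.sum_congr rfl fun I _ => ?_
  congr 1
  rw [← Finset.mul_prod_erase _ _ (Finset.mem_univ k), Function.update_self, smul_eq_mul, mul_comm]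
  congr 1
  refine Finset.prod_congr rfl fun l hl => ?_
  rw [Function.update_of_ne (Finset.ne_of_mem_erase hl)]

variable {A}

/-- The derivative of the relations. -/
theorem kills_of_rel (hg : 0 < g) {m : ℕ} {ψ : MultilinearMap ℚ (fun _ : Fin m × Fin 2 => A.H1) ℚ}
    {X : Module.End ℚ A.H1} (hX : IsSkew A.om X)
    (h : ∀ t : ℂ, ∃ ν, Rel A ψ (NormedSpace.exp (t • Pool.Agent.R917.EC.rm X)) ν) : Kills X ψ := by
  obtain ⟨i0, j0, h0⟩ := exists_om_ne A hg
  obtain ⟨w, hw⟩ : ∃ w : ℂ, w = Om A i0 j0 := ⟨_, rfl⟩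
  have hw0 : w ≠ 0 := by
    rw [hw]
    unfold Om
    rw [Matrix.of_apply]
    exact_mod_cast h0
  obtain ⟨Z, hZ⟩ : ∃ Z, Z = Pool.Agent.R917.EC.rm X := ⟨_, rfl⟩
  rw [← hZ] at h
  intro v
  obtain ⟨v', hv'⟩ : ∃ v' : Fin m × Fin 2 → Fin (2 * g) → ℂ, v' = fun l => cv A (v l) := ⟨_, rfl⟩
  -- the relation
  have h1 : ∀ t : ℂ, w ^ m * mC A ψ (fun l => v' l ᵥ* NormedSpace.exp (t • Z)) =
      ((NormedSpace.exp (t • Z) * Om A * (NormedSpace.exp (t • Z))ᵀ) i0 j0) ^ m * mC A ψ v' := by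
    intro t
    obtain ⟨ν, -, h2, h3⟩ := h t
    rw [h2, h3, Matrix.smul_apply, ← hw, smul_eq_mul, mul_pow]
    ring
  -- the derivative of the multiplier
  have hsk : Z * Om A + Om A * Zᵀ = 0 := by
    ext i j
    rw [Matrix.add_apply, Matrix.mul_apply, Matrix.mul_apply, Matrix.zero_apply]
    have e1 : ∀ (i j : Fin (2 * g)), ∑ k, Z i k * Om A k j =
        ((A.om (X (A.bas i)) (A.bas j) : ℚ) : ℂ) := by
      intro i j
      have h2 := lin_sum (A := A) (A.om.flip (A.bas j)) (X (A.bas i))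
      rw [LinearMap.flip_apply] at h2
      rw [h2]
      push_cast
      refine Finset.sum_congr rfl fun k _ => ?_
      rw [hZ]
      unfold Om Pool.Agent.R917.EC.rm AbVar.bas eb
      simp only [Matrix.of_apply, Pi.basisFun_apply, smul_eq_mul, LinearMap.flip_apply]
      push_cast
      rfl
    have e2 : ∑ k, Om A i k * Zᵀ k j = ((A.om (A.bas i) (X (A.bas j)) : ℚ) : ℂ) := by
      have h2 : ∀ k, Om A i k * Zᵀ k j = -(Z j k * Om A k i) := by
        intro k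
        have h3 : Om A i k = -Om A k i := by
          unfold Om
          rw [Matrix.of_apply, Matrix.of_apply, A.om_anti]
          push_cast
          rfl
        rw [h3, Matrix.transpose_apply]
        ring
      rw [Finset.sum_congr rfl fun k _ => h2 k, Finset.sum_neg_distrib, e1, A.om_anti (A.bas i)]
      push_cast
      rfl
    rw [e1, e2]
    have h4 := hX (A.bas i) (A.bas j)
    exact_mod_cast h4
  have h2 : HasDerivAt (fun t : ℂ => (NormedSpace.exp (t • Z) * Om A *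
      (NormedSpace.exp (t • Z))ᵀ) i0 j0) 0 0 := by
    have hc : ∀ (M : Matrix (Fin (2 * g)) (Fin (2 * g)) ℂ) (i j : Fin (2 * g)),
        HasDerivAt (fun _ : ℂ => M i j)
          ((0 : Matrix (Fin (2 * g)) (Fin (2 * g)) ℂ) i j) 0 := fun M i j => hasDerivAt_const _ _
    have h3 := Pool.Agent.N208.AM.hasDerivAt_mul (P := fun t : ℂ => NormedSpace.exp (t • Z) * Om A)
      (Q := fun t : ℂ => (NormedSpace.exp (t • Z))ᵀ) (Q' := Zᵀ) (t := 0)
      (Pool.Agent.N208.AM.hasDerivAt_mul (P := fun t : ℂ => NormedSpace.exp (t • Z))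
        (Q := fun _ : ℂ => Om A) (hasDerivAt_e Z) (hc (Om A)))
      (fun i j => hasDerivAt_e Z j i) i0 j0
    refine h3.congr_deriv ?_
    rw [zero_smul, NormedSpace.exp_zero, Matrix.mul_zero, Matrix.transpose_one, Matrix.mul_one,
      Matrix.one_mul, add_zero, hsk, Matrix.zero_apply]
  have h3 := (hasDerivAt_mC A ψ Z v').const_mul (w ^ m)
  have h4 := (h2.pow m).mul_const (mC A ψ v')
  have h5 : (fun t : ℂ => w ^ m * mC A ψ (fun l => v' l ᵥ* NormedSpace.exp (t • Z))) =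
      fun t => ((NormedSpace.exp (t • Z) * Om A * (NormedSpace.exp (t • Z))ᵀ) i0 j0) ^ m *
        mC A ψ v' := by
    funext t
    exact h1 t
  rw [h5] at h3
  have h6 := h3.unique h4
  rw [mul_zero, zero_mul] at h6
  have h7 := (mul_eq_zero.1 h6).resolve_left (pow_ne_zero m hw0)
  have h8 : ∀ k, mC A ψ (Function.update v' k (v' k ᵥ* Z)) =
      ((ψ (Function.update v k (X (v k))) : ℚ) : ℂ) := by
    intro k
    rw [← mC_cv]
    congr 1
    funext l
    by_cases hl : l = k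
    · subst hl
      rw [Function.update_self, Function.update_self, hv', hZ]
      exact cv_vecMul_rm A X (v l)
    · rw [Function.update_of_ne hl, Function.update_of_ne hl, hv']
  rw [Finset.sum_congr rfl fun k _ => h8 k] at h7
  exact_mod_cast h7

end deriv

section main

variable {g n s : ℕ} {A : AbVarG g}

theorem mt_Fl0 (L : Tup A.toAbVar n s) : OM.mt L ∈ Fl (lev g n s) 0 := by
  intro r r' h
  rcases r with j | l | i <;> rcases r' with j' | l' | i' <;>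
    simp only [lev, Sum.elim_inl, Sum.elim_inr] at h <;>
    simp only [OM.mt, mtQ, Matrix.map_apply, Matrix.of_apply, Sum.elim_inl, Sum.elim_inr,
      map_zero] <;> omega

theorem blk_mt0 (L : Tup A.toAbVar n s) (h : L.2.1 = 0) :
    blk (OM.mt L) = Pool.Agent.R917.EC.rm L.1 := by
  ext j j'
  have h1 := (Pool.Agent.R917.EC.blk_mt L).jj j j'
  rw [blk_apply, h1]
  unfold op
  rw [h, zero_smul, add_zero]

open Pool.Agent.N208.OneM in
/-- **The Lie algebra of a subgroup of the Mumford-Tate group annihilates the Hodge tensors.** -/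
theorem aa_le_MA {u : Fin n → Fin g → ℂ} {v : Fin s → Fin g → ℂ} {ℓ : Fin n → Fin s → ℂ}
    {G : Subgroup (GL (Betti g n s) ℂ)} (hle : G ≤ mumfordTate A u v ℓ)
    (hpt : PtM A.toAbVar (dat A u v ℓ)
      {M | ∃ x ∈ G, (x : Matrix (Betti g n s) (Betti g n s) ℂ) = M}) :
    aa (gg A.toAbVar n s {M | ∃ x ∈ G, (x : Matrix (Betti g n s) (Betti g n s) ℂ) = M}) ≤
      A.toAbVar.MA := by
  rintro _ ⟨L₀, hL₀, rfl⟩
  change L₀.1 ∈ A.toAbVar.MA
  rcases Nat.eq_zero_or_pos g with hg | hg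
  · have h1 : L₀.1 = 0 := by
      refine LinearMap.ext fun w => ?_
      funext j
      exact absurd j.2 (by omega)
    rw [h1]
    exact A.toAbVar.MA.zero_mem
  obtain ⟨W, hW, hW1, hW2⟩ := Pool.Agent.R917.DT.weight hpt
  obtain ⟨L, hL, e1, e2⟩ : ∃ L ∈ gg A.toAbVar n s
      {M | ∃ x ∈ G, (x : Matrix (Betti g n s) (Betti g n s) ℂ) = M}, L.1 = L₀.1 ∧ L.2.1 = 0 := by
    refine ⟨L₀ - L₀.2.1 • W, Submodule.sub_mem _ hL₀ (Submodule.smul_mem _ _ hW), ?_, ?_⟩
    · change L₀.1 - L₀.2.1 • W.1 = _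
      rw [hW1, smul_zero, sub_zero]
    · change L₀.2.1 - L₀.2.1 * W.2.1 = 0
      rw [hW2, mul_one, sub_self]
  rw [← e1]
  intro m ψ hψ
  refine kills_of_rel hg (A.toAbVar.NA_skew hL.1) fun t => ?_
  have h1 : mumfordTate A u v ℓ ≤ HG A.toAbVar n s ψ :=
    sInf_le ⟨HG_alg A.toAbVar ψ hg, fun z hz =>
      ⟨_, deligne_HG A.toAbVar (dat A u v ℓ) hψ hz, deligne_exp A hz rfl⟩⟩
  obtain ⟨x, hx, hxe⟩ := exp_mem hpt.grp fun k => (hL.2 k).smul t
  obtain ⟨-, ν, hν⟩ := h1 (hle hx)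
  refine ⟨ν, ?_⟩
  have h2 : t • OM.mt L ∈ Fl (lev g n s) 0 := Submodule.smul_mem _ _ (mt_Fl0 L)
  have h3 : blk (x : Matrix (Betti g n s) (Betti g n s) ℂ) =
      NormedSpace.exp (t • Pool.Agent.R917.EC.rm L.1) := by
    rw [hxe, blk_exp h2, ← blk_mt0 L e2]
    rfl
  rwa [h3] at hν

end main

end Pool.Agent.K6.H7.CM1
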