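import Pool.Agent.K6.H7.CM1.Hdg

set_option autoImplicit false
set_option linter.unusedSectionVars false
set_option linter.unusedSimpArgs false

/-!
# Differences of weights
-/

open Module Matrix TensorProduct Pool.Agent.Y102 Pool.Agent.H204R3.GP

noncomputable section

namespace Pool.Agent.K6.H7.CM1

section defs

variable {ι : Type} {K : ι → Type} [∀ i, Field (K i)] [∀ i, NumberField (K i)]

/-- The complex embedding `φ ∘ χ` of `F`, for an embedding `χ` of `F` in `L` and a complex embedding `φ`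
of `L`. -/
def compEmb {F L : Type} [Field F] [NumberField F] [Field L] [NumberField L] (χ : F →ₐ[ℚ] L)
    (φ : L →+* ℂ) : F →+* ℂ :=
  φ.comp (χ : F →+* L)

open Classical in
/-- The weight of the Hodge torus of the product of the `ℂ^{Φ_i} / O_{K_i}` given by an embedding
`χ : K_i → L`, as a function on the set of the complex embeddings `φ` of `L`: it is `1` if
`φ ∘ χ ∈ Φ_i`, and `-1` otherwise. -/
def weight (Φ : ∀ i, Set (K i →+* ℂ)) (L : Type) [Field L] [NumberField L]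
    (p : Σ i, (K i →ₐ[ℚ] L)) : (L →+* ℂ) → ℚ :=
  fun φ => if compEmb p.2 φ ∈ Φ p.1 then 1 else -1

/-- The space `W` of rational functions on the set of the complex embeddings of `L` is stable under
the Galois group of `L`. -/
def IsGaloisStable {L : Type} [Field L] [NumberField L] (W : Submodule ℚ ((L →+* ℂ) → ℚ)) : Prop :=
  ∀ (σ : L ≃ₐ[ℚ] L), ∀ f ∈ W, (fun φ : L →+* ℂ => f (φ.comp (σ : L →+* L))) ∈ W

/-- Every nonzero Galois stable subspace of the space generated by the weights contains a difference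
of two different weights. -/
def HasWeightDifferences (Φ : ∀ i, Set (K i →+* ℂ)) (L : Type) [Field L] [NumberField L] : Prop :=
  ∀ W : Submodule ℚ ((L →+* ℂ) → ℚ), W ≤ Submodule.span ℚ (Set.range (weight Φ L)) →
    IsGaloisStable W → W ≠ ⊥ →
      ∃ p q, weight Φ L p ≠ weight Φ L q ∧ weight Φ L p - weight Φ L q ∈ W

end defs

variable {ι : Type} {K : ι → Type} [∀ i, Field (K i)] [∀ i, NumberField (K i)]
  {L : Type} [Field L] [NumberField L]

theorem weight_apply (Φ : ∀ i, Set (K i →+* ℂ)) (p : Σ i, (K i →ₐ[ℚ] L)) (φ : L →+* ℂ) :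
    weight Φ L p φ = ((sg Φ (cp φ p) : ℤ) : ℚ) := by
  unfold weight sg cp compEmb
  dsimp only
  split_ifs <;> simp

/-- the inverse action -/
def glE (σ : L ≃ₐ[ℚ] L) : (Σ i, (K i →ₐ[ℚ] L)) ≃ (Σ i, (K i →ₐ[ℚ] L)) where
  toFun := gl σ
  invFun := gl σ⁻¹
  left_inv p := by
    refine Sigma.ext rfl (heq_of_eq ?_)
    refine AlgHom.ext fun x => ?_
    exact σ.symm_apply_apply _
  right_inv p := by
    refine Sigma.ext rfl (heq_of_eq ?_)
    refine AlgHom.ext fun x => ?_
    exact σ.apply_symm_apply _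

/-- Linear functionals separate the elements of `L`. -/
theorem eq_zero_of_functionals {F : Type} [Field F] [NumberField F] (χ : F →ₐ[ℚ] L) {z : L}
    (h : ∀ t : L →ₗ[ℚ] F, (∀ x y, t (χ x * y) = x * t y) → t z = 0) : z = 0 := by
  let _ : Algebra F L := (χ : F →+* L).toAlgebra
  refine (Module.forall_dual_apply_eq_zero_iff F z).1 fun f => ?_
  have hf : ∀ x y, f (χ x * y) = x * f y := fun x y => f.map_smul x y
  refine h { toFun := f, map_add' := map_add f, map_smul' := fun c x => ?_ } hf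
  have h1 := hf (c : F) x
  rw [map_ratCast] at h1
  rw [Rat.smul_def, h1, RingHom.id_apply, Rat.smul_def]

/-- The embeddings of a Galois extension of the field of rational numbers. -/
theorem exists_galois [IsGalois ℚ L] (φ ψ : L →+* ℂ) : ∃ σ : L ≃ₐ[ℚ] L, ψ = tw φ σ := by
  obtain ⟨ν, hν⟩ := NumberField.ComplexEmbedding.exists_comp_symm_eq_of_comp_eq (k := ℚ) φ ψ
    (by ext; simp)
  exact ⟨ν.symm, hν.symm⟩

/-- If the fields embed in `L`, then all complex embeddings factor. -/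
theorem exists_factor [IsGalois ℚ L] (hK : ∀ i, Nonempty (K i →ₐ[ℚ] L)) (φ : L →+* ℂ) (i : ι)
    (ρ : K i →+* ℂ) : ∃ χ : K i →ₐ[ℚ] L, φ.comp (χ : K i →+* L) = ρ := by
  obtain ⟨j⟩ := hK i
  let _ : Algebra (K i) L := (j : K i →+* L).toAlgebra
  let _ : Algebra (K i) ℂ := ρ.toAlgebra
  have : Module.Finite (K i) L := by
    have : IsScalarTower ℚ (K i) L := IsScalarTower.of_algebraMap_eq fun x => by
      rw [eq_ratCast, eq_ratCast, map_ratCast]
    exact Module.Finite.of_restrictScalars_finite ℚ (K i) L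
  let ψ : L →ₐ[K i] ℂ := IsAlgClosed.lift
  obtain ⟨σ, hσ⟩ := exists_galois φ (ψ : L →+* ℂ)
  refine ⟨(σ : L →ₐ[ℚ] L).comp j, ?_⟩
  refine RingHom.ext fun x => ?_
  change φ (σ (j x)) = ρ x
  have h1 : tw φ σ (j x) = ρ x := by
    rw [← hσ]
    exact ψ.commutes x
  exact h1

namespace CMData

variable {g : ℕ} {A : AbVar g} {Φ : ∀ i, Set (K i →+* ℂ)} (D : CMData A Φ) [Fintype ι]

/-- the relations of `𝔥` -/
def NN (L : Type) [Field L] [NumberField L] (𝔥 : Submodule ℚ (Module.End ℚ A.H1)) :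
    Submodule ℚ ((Σ i, (K i →ₐ[ℚ] L)) → ℚ) where
  carrier := {n | ∀ θ, D.act θ ∈ 𝔥 → ∑ p, n p • p.2 (θ p.1) = 0}
  zero_mem' := fun θ _ => Finset.sum_eq_zero fun p _ => zero_smul ℚ _
  add_mem' := fun {n n'} hn hn' θ hθ => by
    have h1 := hn θ hθ
    have h2 := hn' θ hθ
    simp only [Pi.add_apply, add_smul, Finset.sum_add_distrib, h1, h2, add_zero]
  smul_mem' := fun c n hn θ hθ => by
    have h1 := hn θ hθ
    simp only [Pi.smul_apply, smul_eq_mul, mul_smul, ← Finset.smul_sum, h1, smul_zero]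

/-- the values of the relations on the cocharacter -/
def SS (Φ : ∀ i, Set (K i →+* ℂ)) (L : Type) [Field L] [NumberField L] :
    ((Σ i, (K i →ₐ[ℚ] L)) → ℚ) →ₗ[ℚ] ((L →+* ℂ) → ℚ) :=
  Fintype.linearCombination ℚ (weight Φ L)

theorem SS_apply (n : (Σ i, (K i →ₐ[ℚ] L)) → ℚ) (φ : L →+* ℂ) :
    SS Φ L n φ = ∑ p, n p * (sg Φ (cp φ p) : ℚ) := by
  unfold SS
  rw [Fintype.linearCombination_apply, Finset.sum_apply]
  refine Finset.sum_congr rfl fun p _ => ?_
  rw [Pi.smul_apply, weight_apply, smul_eq_mul]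

/-- **Two equal eigenvalues.** -/
theorem eq_of_full (hΦ : ∀ i, IsCMType (Φ i)) {𝔥 : Submodule ℚ (Module.End ℚ A.H1)}
    (hF : A.Full 𝔥) (hle : 𝔥 ≤ A.MA) {p q : Σ i, (K i →ₐ[ℚ] L)}
    (hpq : ∀ θ, D.act θ ∈ 𝔥 → p.2 (θ p.1) = q.2 (θ q.1)) : weight Φ L p = weight Φ L q := by
  classical
  obtain ⟨κ, S, b, f, θ, h2, h3, -⟩ := D.exists_J hΦ
  have h4 : ∀ k, p.2 (θ k p.1) = q.2 (θ k q.1) := by
    intro k
    rw [← sub_eq_zero]
    refine eq_zero_of_functionals q.2 fun t ht => ?_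
    let P : Module.End ℚ A.H1 := D.E.toLinearMap ∘ₗ ((LinearMap.single ℚ K q.1) ∘ₗ
      (t ∘ₗ p.2.toLinearMap ∘ₗ (LinearMap.proj p.1 : (∀ i, K i) →ₗ[ℚ] K p.1))) ∘ₗ
        D.E.symm.toLinearMap
    have hP : ∀ x, P (D.E x) = D.E (Pi.single q.1 (t (p.2 (x p.1)))) := by
      intro x
      change D.E (Pi.single q.1 (t (p.2 (D.E.symm (D.E x) p.1)))) = _
      rw [LinearEquiv.symm_apply_apply]
    have hmul : ∀ (η : ∀ i, K i) (y : K q.1), η * Pi.single q.1 y = Pi.single q.1 (η q.1 * y) := by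
      intro η y
      funext i
      by_cases hi : i = q.1
      · subst hi
        rw [Pi.mul_apply, Pi.single_eq_same, Pi.single_eq_same]
      · rw [Pi.mul_apply, Pi.single_eq_of_ne hi, Pi.single_eq_of_ne hi, mul_zero]
    have hcomm : ∀ X ∈ 𝔥, X * P = P * X := by
      intro X hX
      obtain ⟨η, rfl⟩ := D.exists_act (hle hX)
      refine D.ext_E fun x => ?_
      rw [Module.End.mul_apply, Module.End.mul_apply, hP, D.act_E, D.act_E, hP, hmul,
        Pi.mul_apply, map_mul, hpq η hX, ht]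
    have h5 := hF.comm P hcomm _ (A.MA_le_NA (A.J_mem (f k)))
    rw [← h2 k] at h5
    have h6 := congrArg (fun X : Module.End ℚ A.H1 => X (D.E 1)) h5
    simp only [Module.End.mul_apply, hP, D.act_E, hmul, mul_one, Pi.one_apply, map_one] at h6
    have h7 := D.E.injective h6
    have h8 := congrFun h7 q.1
    rw [Pi.single_eq_same, Pi.single_eq_same] at h8
    have h9 := ht (θ k q.1) 1
    rw [mul_one] at h9
    rw [map_sub, ← h8, h9, sub_self]
  funext φ
  rw [weight_apply, weight_apply]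
  have h5 := h3 (cp φ p)
  have h6 := h3 (cp φ q)
  have h7 : ∀ k, ev (cp φ p) (θ k) = ev (cp φ q) (θ k) := fun k => congrArg φ (h4 k)
  rw [Finset.sum_congr rfl fun k _ => by rw [h7 k], h6] at h5
  have h8 := mul_right_cancel₀ Complex.I_ne_zero h5
  have h9 : sg Φ (cp φ q) = sg Φ (cp φ p) := by exact_mod_cast h8
  rw [h9]

include D in
/-- **The complex structure is in the Lie algebra.** -/
theorem J_mem (hΦ : ∀ i, IsCMType (Φ i)) [IsGalois ℚ L] {c : L ≃ₐ[ℚ] L}
    (hc : ∀ φ : L →+* ℂ, tw φ c = NumberField.ComplexEmbedding.conjugate φ)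
    (hK : ∀ i, Nonempty (K i →ₐ[ℚ] L)) (hC : HasWeightDifferences Φ L)
    {𝔥 : Submodule ℚ (Module.End ℚ A.H1)} (hF : A.Full 𝔥) (hRC : Pool.Agent.R917.DT.RC 𝔥)
    (hle : 𝔥 ≤ A.MA) (r : ℝ →ₗ[ℚ] ℚ) : A.cmpE r AbVar.JJ ∈ 𝔥 := by
  classical
  refine D.J_mem_of hΦ hRC (fun c0 hc0 => ?_) r
  have hW : (D.NN L 𝔥).map (SS Φ L) = ⊥ := by
    by_contra hcon
    obtain ⟨p, q, h1, n, hn, h2⟩ := hC _ (by
      rintro _ ⟨n, -, rfl⟩
      exact (Fintype.range_linearCombination ℚ (weight Φ L)).le ⟨n, rfl⟩) (by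
      rintro σ _ ⟨n, hn, rfl⟩
      refine ⟨fun p => n ((glE σ).symm p), fun θ hθ => ?_, ?_⟩
      · have h3 := hn θ hθ
        have h4 : ∑ p : Σ i, (K i →ₐ[ℚ] L), n ((glE σ).symm p) • p.2 (θ p.1) =
            ∑ p : Σ i, (K i →ₐ[ℚ] L), n p • (glE σ p).2 (θ (glE σ p).1) := by
          rw [← Equiv.sum_comp (glE σ)]
          exact Finset.sum_congr rfl fun p _ => by rw [Equiv.symm_apply_apply]
        have h5 : ∀ p : Σ i, (K i →ₐ[ℚ] L), n p • (glE σ p).2 (θ (glE σ p).1) =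
            σ (n p • p.2 (θ p.1)) := fun p => (σ.toLinearMap.map_smul (n p) (p.2 (θ p.1))).symm
        rw [h4, Finset.sum_congr rfl fun p _ => h5 p, ← map_sum, h3, map_zero]
      · funext φ
        rw [SS_apply]
        change _ = SS Φ L n (tw φ σ)
        rw [SS_apply, ← Equiv.sum_comp (glE σ)]
        refine Finset.sum_congr rfl fun p _ => ?_
        rw [Equiv.symm_apply_apply]
        rfl) hcon
    apply h1
    refine D.eq_of_full hΦ hF hle fun θ hθ => ?_
    have h3 := D.rel hΦ hc (n := n - Pi.single p 1 + Pi.single q 1) (fun φ => by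
      rw [← SS_apply, map_add, map_sub]
      have h4 : ∀ p, SS Φ L (Pi.single p 1) = weight Φ L p := by
        intro p
        unfold SS
        rw [Fintype.linearCombination_apply_single, one_smul]
      rw [h2, h4, h4, sub_sub_cancel_left, neg_add_cancel]
      rfl) (hle hθ)
    have h4 := hn θ hθ
    have h5 : ∀ p, ∑ r : Σ i, (K i →ₐ[ℚ] L), (Pi.single p (1 : ℚ) :
        (Σ i, (K i →ₐ[ℚ] L)) → ℚ) r • r.2 (θ r.1) = p.2 (θ p.1) := by
      intro p
      rw [Finset.sum_eq_single p]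
      · rw [Pi.single_eq_same, one_smul]
      · intro r _ hr
        rw [Pi.single_eq_of_ne hr, zero_smul]
      · intro h
        exact absurd (Finset.mem_univ _) h
    simp only [Pi.add_apply, Pi.sub_apply, add_smul, sub_smul, Finset.sum_add_distrib,
      Finset.sum_sub_distrib, h4, h5, zero_sub] at h3
    exact (neg_add_eq_zero.1 h3)
  obtain ⟨φ⟩ : Nonempty (L →+* ℂ) := inferInstance
  have hbij : Function.Bijective (fun p : Σ i, (K i →ₐ[ℚ] L) => cp φ p) := by
    constructor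
    · rintro ⟨i, χ⟩ ⟨j, χ'⟩ h
      obtain rfl : i = j := congrArg Sigma.fst h
      have h1 : φ.comp (χ : K i →+* L) = φ.comp (χ' : K i →+* L) := eq_of_heq (Sigma.ext_iff.1 h).2
      refine Sigma.ext rfl (heq_of_eq ?_)
      refine AlgHom.ext fun x => ?_
      exact φ.injective (congrArg (fun F : K i →+* ℂ => F x) h1)
    · rintro ⟨i, ρ⟩
      obtain ⟨χ, hχ⟩ := exists_factor hK φ i ρ
      exact ⟨⟨i, χ⟩, Sigma.ext rfl (heq_of_eq hχ)⟩
  have h1 : (fun p => c0 (cp φ p)) ∈ D.NN L 𝔥 := by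
    intro θ hθ
    apply φ.injective
    rw [map_sum, map_zero, ← hc0 θ hθ, ← (Equiv.ofBijective _ hbij).sum_comp]
    refine Finset.sum_congr rfl fun p _ => ?_
    rw [Rat.smul_def, map_mul, map_ratCast]
    rfl
  have h2 : SS Φ L (fun p => c0 (cp φ p)) = 0 := by
    have h3 : SS Φ L (fun p => c0 (cp φ p)) ∈ (D.NN L 𝔥).map (SS Φ L) := ⟨_, h1, rfl⟩
    rwa [hW, Submodule.mem_bot] at h3
  have h3 := congrFun h2 φ
  rw [SS_apply] at h3
  rw [← (Equiv.ofBijective _ hbij).sum_comp]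
  exact h3

end CMData

end Pool.Agent.K6.H7.CM1
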